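import Pool.Agent.OddU.Defs

set_option autoImplicit false

namespace Pool.Agent.OddU

open Finset

namespace Ab

theorem phi_single (c x : ℤ) (r : ℝ) :
    phi c (AddMonoidAlgebra.single x r) = AddMonoidAlgebra.single (c * x) r :=
  AddMonoidAlgebra.mapDomain_single

theorem phi_mono (c x : ℤ) : phi c (mono x) = mono (c * x) := phi_single c x 1

theorem phi_dif (c x : ℤ) : phi c (dif x) = dif (c * x) := by
  rw [dif, map_sub, map_one, phi_mono, dif]

theorem coeff_mono_mul (c : ℤ) (f : LP) (x : ℤ) : (mono c * f).coeff x = f.coeff (x - c) := by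
  rw [mono, AddMonoidAlgebra.coeff_single_mul_apply, one_mul]
  congr 1
  ring

theorem coeff_dif_mul (c : ℤ) (f : LP) (x : ℤ) :
    (dif c * f).coeff x = f.coeff x - f.coeff (x - c) := by
  have h : dif c * f = f - mono c * f := by rw [dif]; ring
  rw [h]
  have h2 : (f - mono c * f).coeff x = f.coeff x - (mono c * f).coeff x := by
    simp
  rw [h2, coeff_mono_mul]

theorem coeff_ind (α β x : ℤ) : (ind α β).coeff x = if α < x ∧ x ≤ β then 1 else 0 := by
  classical
  rw [ind, AddMonoidAlgebra.coeff_sum, Finsupp.finsetSum_apply]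
  have h : ∀ y ∈ Finset.Ioc α β, (mono y).coeff x = if y = x then (1 : ℝ) else 0 := by
    intro y _
    rw [mono, AddMonoidAlgebra.coeff_single, Finsupp.single_apply]
  rw [Finset.sum_congr rfl h, Finset.sum_ite_eq']
  simp [Finset.mem_Ioc]

/-- support of `(1 - T^c)^j * ind α β` for `c ≥ 0` -/
theorem supp_dif_pow (c : ℤ) (hc : 0 ≤ c) (α β : ℤ) : ∀ (j : ℕ) (x : ℤ),
    (dif c ^ j * ind α β).coeff x ≠ 0 → α < x ∧ x ≤ β + j * c := by
  intro j
  induction j with
  | zero =>
    intro x hx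
    rw [pow_zero, one_mul, coeff_ind] at hx
    split_ifs at hx with h
    · exact ⟨h.1, by simpa using h.2⟩
    · exact absurd rfl hx
  | succ j ih =>
    intro x hx
    rw [pow_succ', mul_assoc, coeff_dif_mul] at hx
    by_cases h1 : (dif c ^ j * ind α β).coeff x = 0
    · rw [h1, zero_sub, neg_ne_zero] at hx
      have := ih _ hx
      push_cast
      constructor
      · linarith [this.1]
      · linarith [this.2]
    · have := ih _ h1
      push_cast
      constructor
      · linarith [this.1]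
      · linarith [this.2]

theorem supp_dif_ind (c α β : ℤ) (h : α ≤ β) (x : ℤ) (hx : (dif c * ind α β).coeff x ≠ 0) :
    |x - α| ≤ |c| ∨ |x - β| ≤ |c| := by
  rw [coeff_dif_mul, coeff_ind, coeff_ind] at hx
  have key : ¬ ((α < x ∧ x ≤ β) ↔ (α < x - c ∧ x - c ≤ β)) := by
    intro hh
    apply hx
    by_cases h1 : α < x ∧ x ≤ β
    · rw [if_pos h1, if_pos (hh.1 h1), sub_self]
    · rw [if_neg h1, if_neg (fun h2 => h1 (hh.2 h2)), sub_self]
  by_contra hcon
  push Not at hcon
  obtain ⟨h1, h2⟩ := hcon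
  apply key
  rw [lt_abs] at h1 h2
  rcases abs_cases c with ⟨hc, hc'⟩ | ⟨hc, hc'⟩ <;> rw [hc] at h1 h2 <;>
  constructor <;> intro h3 <;> constructor <;> rcases h1 with h1 | h1 <;> rcases h2 with h2 | h2 <;>
    omega

theorem exists_of_mul (f g : LP) (z : ℤ) (h : (f * g).coeff z ≠ 0) :
    ∃ x y, f.coeff x ≠ 0 ∧ g.coeff y ≠ 0 ∧ x + y = z := by
  classical
  have hz : z ∈ (f * g).coeff.support := Finsupp.mem_support_iff.2 h
  have := AddMonoidAlgebra.support_coeff_mul_subset f g hz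
  rw [Finset.mem_add] at this
  obtain ⟨x, hx, y, hy, hxy⟩ := this
  exact ⟨x, y, Finsupp.mem_support_iff.1 hx, Finsupp.mem_support_iff.1 hy, hxy⟩

theorem exists_of_phi (c : ℤ) (f : LP) (z : ℤ) (h : (phi c f).coeff z ≠ 0) :
    ∃ x, f.coeff x ≠ 0 ∧ c * x = z := by
  classical
  have hz : z ∈ (phi c f).coeff.support := Finsupp.mem_support_iff.2 h
  have h2 : (phi c f).coeff = Finsupp.mapDomain (fun x => c * x) f.coeff := rfl
  rw [h2] at hz
  have := Finsupp.mapDomain_support hz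
  rw [Finset.mem_image] at this
  obtain ⟨x, hx, hxz⟩ := this
  exact ⟨x, Finsupp.mem_support_iff.1 hx, hxz⟩

theorem exists_of_prod {k : ℕ} (a : Fin k → ℤ) (G : Fin k → LP) (s : Finset (Fin k)) :
    ∀ z : ℤ, (∏ l ∈ s, phi (a l) (G l)).coeff z ≠ 0 →
      ∃ x : Fin k → ℤ, (∀ l ∈ s, (G l).coeff (x l) ≠ 0) ∧ ∑ l ∈ s, a l * x l = z := by
  classical
  induction s using Finset.induction_on with
  | empty =>
    intro z hz
    refine ⟨0, by simp, ?_⟩
    rw [Finset.prod_empty] at hz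
    rw [Finset.sum_empty]
    by_contra hne
    apply hz
    rw [AddMonoidAlgebra.one_def, AddMonoidAlgebra.coeff_single, Finsupp.single_apply, if_neg hne]
  | insert l s hl ih =>
    intro z hz
    rw [Finset.prod_insert hl] at hz
    obtain ⟨u, v, hu, hv, huv⟩ := exists_of_mul _ _ _ hz
    obtain ⟨y, hy, hyu⟩ := exists_of_phi _ _ _ hu
    obtain ⟨x, hx, hxv⟩ := ih v hv
    refine ⟨Function.update x l y, ?_, ?_⟩
    · intro m hm
      rcases Finset.mem_insert.1 hm with rfl | hm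
      · simpa using hy
      · have : m ≠ l := fun h => hl (h ▸ hm)
        rw [Function.update_of_ne this]
        exact hx m hm
    · rw [Finset.sum_insert hl, Function.update_self, hyu, ← huv, ← hxv]
      congr 1
      apply Finset.sum_congr rfl
      intro m hm
      have : m ≠ l := fun h => hl (h ▸ hm)
      rw [Function.update_of_ne this]

theorem exists_of_br {k : ℕ} (a : Fin k → ℤ) (G : Fin k → LP) (h : br a G ≠ 0) :
    ∃ x : Fin k → ℤ, (∀ l, (G l).coeff (x l) ≠ 0) ∧ ∑ l, a l * x l = 0 := by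
  obtain ⟨x, hx, h2⟩ := exists_of_prod a G univ 0 h
  exact ⟨x, fun l => hx l (mem_univ l), h2⟩

theorem dvd_hh {k : ℕ} (a : Fin k → ℤ) (v : Fin k) : a v ∣ hh a := by
  unfold hh LL
  apply Dvd.dvd.mul_left
  exact ((dvd_abs (a v) (a v)).2 dvd_rfl).trans (Finset.dvd_prod_of_mem (fun l => |a l|) (mem_univ v))

theorem AA_nonneg {k : ℕ} (a : Fin k → ℤ) : 0 ≤ AA a := Finset.sum_nonneg fun _ _ => abs_nonneg _

theorem LL_nonneg {k : ℕ} (a : Fin k → ℤ) : 0 ≤ LL a := Finset.prod_nonneg fun _ _ => abs_nonneg _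

theorem hh_nonneg {k : ℕ} (a : Fin k → ℤ) : 0 ≤ hh a := by
  have h1 := AA_nonneg a
  have h2 := LL_nonneg a
  unfold hh
  positivity

theorem abs_le_AA {k : ℕ} (a : Fin k → ℤ) (l : Fin k) : |a l| ≤ AA a :=
  Finset.single_le_sum (f := fun l => |a l|) (fun _ _ => abs_nonneg _) (mem_univ l)

end Ab

/-- ROW ABS (Abs.lean) -/
theorem absorb {k : ℕ} (a : Fin k → ℤ) (ha : ∀ l, a l ≠ 0) (q : ℕ) (hq : 0 < q)
    (S : Finset (Fin k)) (hS : S.Nonempty) (B' : Fin k → ℤ) (F : Fin k → LP)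
    (hF : ∀ l ∈ S, F l = bump k (hh a) (B' l) q) (α β : Fin k → ℤ)
    (hαβ : ∀ v ∉ S, α v ≤ β v) (hI : ∀ v ∉ S, F v = ind (α v) (β v))
    (hno : ∀ x : Fin k → ℤ, (∀ l ∈ S, B' l * q ≤ x l ∧ x l ≤ (B' l + 1 + k * hh a) * q) →
      (∀ v ∉ S, |x v - α v| ≤ AA a * hh a * q ∨ |x v - β v| ≤ AA a * hh a * q) →
      ∑ l, a l * x l ≠ 0) : br a F = 0 := by
  classical
  obtain ⟨l0, hl0⟩ := hS
  have hhn := Ab.hh_nonneg a
  have hqn : (0 : ℤ) ≤ q := by positivity
  set D : LP := dif (hh a * q) with hD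
  set m : ℕ := Sᶜ.card with hm
  have hmk : m ≤ k := by
    have := Finset.card_le_univ (Sᶜ)
    simpa using this
  -- the shifts
  have hc : ∀ v, ∃ c, a l0 * (hh a * q) = a v * c := by
    intro v
    obtain ⟨d, hd⟩ := Ab.dvd_hh a v
    exact ⟨a l0 * d * q, by rw [hd]; ring⟩
  choose c hc using hc
  have hcabs : ∀ v, |c v| ≤ AA a * hh a * q := by
    intro v
    have h1 : |a v| * |c v| = |a l0| * (hh a * q) := by
      rw [← abs_mul, ← hc v, abs_mul, abs_of_nonneg (mul_nonneg hhn hqn)]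
    have h2 : 1 ≤ |a v| := Int.one_le_abs (ha v)
    have h3 : |c v| ≤ |a v| * |c v| := by nlinarith [abs_nonneg (c v)]
    calc |c v| ≤ |a l0| * (hh a * q) := by rw [← h1]; exact h3
      _ ≤ AA a * (hh a * q) := mul_le_mul_of_nonneg_right (Ab.abs_le_AA a l0) (mul_nonneg hhn hqn)
      _ = AA a * hh a * q := by ring
  let G : Fin k → LP := fun l => if l ∈ S then
    (if l = l0 then D ^ (k - m) * ind (B' l * q) (B' l * q + q) else F l)
    else dif (c l) * ind (α l) (β l)
  have hprod : ∏ l, phi (a l) (F l) = ∏ l, phi (a l) (G l) := by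
    rw [← Finset.prod_mul_prod_compl S, ← Finset.prod_mul_prod_compl S (fun l => phi (a l) (G l)),
      ← Finset.mul_prod_erase S _ hl0, ← Finset.mul_prod_erase S (fun l => phi (a l) (G l)) hl0]
    have e1 : ∏ l ∈ S.erase l0, phi (a l) (G l) = ∏ l ∈ S.erase l0, phi (a l) (F l) := by
      apply Finset.prod_congr rfl
      intro l hl
      have h1 := Finset.mem_of_mem_erase hl
      have h2 := Finset.ne_of_mem_erase hl
      simp only [G, if_pos h1, if_neg h2]
    have e2 : ∏ v ∈ Sᶜ, phi (a v) (G v) = phi (a l0) D ^ m * ∏ v ∈ Sᶜ, phi (a v) (F v) := by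
      rw [hm, ← Finset.prod_const, ← Finset.prod_mul_distrib]
      apply Finset.prod_congr rfl
      intro v hv
      have hv' : v ∉ S := Finset.mem_compl.1 hv
      simp only [G, if_neg hv']
      rw [map_mul, ← hI v hv', Ab.phi_dif, hD, Ab.phi_dif, hc v]
    have e3 : phi (a l0) (G l0) = phi (a l0) D ^ (k - m) * phi (a l0) (ind (B' l0 * q) (B' l0 * q + q)) := by
      simp only [G, if_pos hl0, if_true]
      rw [map_mul, map_pow]
    have e4 : phi (a l0) (F l0) = phi (a l0) D ^ k * phi (a l0) (ind (B' l0 * q) (B' l0 * q + q)) := by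
      rw [hF l0 hl0, bump, map_mul, map_pow, hD]
    rw [e1, e2, e3, e4]
    have e5 : phi (a l0) D ^ k = phi (a l0) D ^ (k - m) * phi (a l0) D ^ m := by
      rw [← pow_add, Nat.sub_add_cancel hmk]
    rw [e5]
    ring
  by_contra hne
  have hne' : br a G ≠ 0 := by
    intro h0
    apply hne
    rw [br, hprod]
    exact h0
  obtain ⟨x, hx, hsum⟩ := Ab.exists_of_br a G hne'
  refine hno x ?_ ?_ hsum
  · intro l hl
    have hxl := hx l
    have hkk : ∀ j : ℕ, j ≤ k →
        (dif (hh a * q) ^ j * ind (B' l * q) (B' l * q + q)).coeff (x l) ≠ 0 →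
        B' l * q ≤ x l ∧ x l ≤ (B' l + 1 + k * hh a) * q := by
      intro j hj hj2
      have h := Ab.supp_dif_pow (hh a * q) (mul_nonneg hhn hqn) _ _ j (x l) hj2
      refine ⟨h.1.le, h.2.trans ?_⟩
      have h4 : (j : ℤ) * (hh a * q) ≤ k * (hh a * q) :=
        mul_le_mul_of_nonneg_right (by exact_mod_cast hj) (mul_nonneg hhn hqn)
      linarith
    by_cases h0 : l = l0
    · simp only [G, if_pos hl, if_pos h0] at hxl
      exact hkk (k - m) (Nat.sub_le _ _) hxl
    · simp only [G, if_pos hl, if_neg h0] at hxl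
      rw [hF l hl, bump] at hxl
      exact hkk k le_rfl hxl
  · intro v hv
    have hxv := hx v
    simp only [G, if_neg hv] at hxv
    rcases Ab.supp_dif_ind (c v) (α v) (β v) (hαβ v hv) (x v) hxv with h | h
    · exact Or.inl (h.trans (hcabs v))
    · exact Or.inr (h.trans (hcabs v))

end Pool.Agent.OddU
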