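import Pool.Agent.OddU.Defs

/-! # the good choice of the free index: counting signs -/

set_option autoImplicit false

namespace Pool.Agent.OddU

open Finset

namespace CH94

variable {k : ℕ}

/-- a bijection of the complements transports counts -/
theorem card_tr {i i' : Fin k} {τ : Fin k → Fin k} (h : Bij i i' τ) (p q : Fin k → Prop)
    [DecidablePred p] [DecidablePred q] (hpq : ∀ l, l ≠ i' → (p l ↔ q (τ l))) :
    ((univ.erase i').filter p).card = ((univ.erase i).filter q).card := by
  apply Finset.card_nbij τ
  · intro l hl
    simp only [coe_filter, mem_erase, mem_univ, and_true, Set.mem_ofPred_eq] at hl ⊢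
    exact ⟨h.mapsTo hl.1, (hpq l hl.1).mp hl.2⟩
  · intro l hl l' hl' he
    simp only [coe_filter, mem_erase, mem_univ, and_true, Set.mem_ofPred_eq] at hl hl'
    exact h.injOn hl.1 hl'.1 he
  · intro m hm
    simp only [coe_filter, mem_erase, mem_univ, and_true, Set.mem_ofPred_eq] at hm
    obtain ⟨l, hl, rfl⟩ := h.surjOn hm.1
    refine ⟨l, ?_, rfl⟩
    simp only [coe_filter, mem_erase, mem_univ, and_true, Set.mem_ofPred_eq]
    exact ⟨hl, (hpq l hl).mpr hm.2⟩

theorem card_er (p : Fin k → Prop) [DecidablePred p] (i : Fin k) :
    ((univ.erase i).filter p).card + (if p i then 1 else 0) = (univ.filter p).card := by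
  have h1 : (univ.erase i).filter p = (univ.filter p).erase i := by
    ext x
    simp only [mem_filter, mem_erase, mem_univ, and_true, true_and]
  rw [h1]
  by_cases hp : p i
  · rw [if_pos hp]
    exact Finset.card_erase_add_one (by simpa using hp)
  · rw [if_neg hp, add_zero, Finset.erase_eq_of_notMem (by simpa using hp)]

/-- if there are more positive than negative coefficients -/
theorem main (a : Fin k → ℤ) (ha : ∀ l, a l ≠ 0) (h5 : 5 ≤ k)
    (hM : 1 ≤ (univ.filter fun l => a l < 0).card)
    (hPM : (univ.filter fun l => a l < 0).card < (univ.filter fun l => 0 < a l).card) :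
    ∃ i, Choice a i := by
  have hsum : (univ.filter fun l => 0 < a l).card + (univ.filter fun l => a l < 0).card = k := by
    have h1 := Finset.card_filter_add_card_filter_not (s := (univ : Finset (Fin k)))
      (p := fun l => 0 < a l)
    rw [Finset.card_univ, Fintype.card_fin] at h1
    have h2 : (univ.filter fun l => ¬ 0 < a l) = univ.filter fun l => a l < 0 := by
      ext l
      simp only [mem_filter, mem_univ, true_and]
      have := ha l
      omega
    rw [h2] at h1
    exact h1
  set P := (univ.filter fun l => 0 < a l).card with hP
  set M := (univ.filter fun l => a l < 0).card with hMd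
  -- the choice of the sign
  have key : ∀ i : Fin k, (a i < 0 ∧ 2 ≤ M) ∨ (0 < a i ∧ M = 1) → Choice a i := by
    intro i hi
    have ep : ((univ.erase i).filter fun l => 0 < a l).card + (if 0 < a i then 1 else 0) = P :=
      card_er (fun l => 0 < a l) i
    have en : ((univ.erase i).filter fun l => a l < 0).card + (if a i < 0 then 1 else 0) = M :=
      card_er (fun l => a l < 0) i
    have hpos : 0 < ((univ.erase i).filter fun l => 0 < a l).card := by
      split_ifs at ep <;> omega
    have hneg : 0 < ((univ.erase i).filter fun l => a l < 0).card := by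
      rcases hi with ⟨h1, h2⟩ | ⟨h1, h2⟩
      · rw [if_pos h1] at en; omega
      · rw [if_neg (by omega)] at en; omega
    refine ⟨?_, ?_, ?_⟩
    · obtain ⟨m, hm⟩ := Finset.card_pos.mp hpos
      simp only [mem_filter, mem_erase, mem_univ, and_true] at hm
      exact ⟨m, hm⟩
    · obtain ⟨m, hm⟩ := Finset.card_pos.mp hneg
      simp only [mem_filter, mem_erase, mem_univ, and_true] at hm
      exact ⟨m, hm⟩
    · intro i' τ lam hτ hl
      have ep' : ((univ.erase i').filter fun l => 0 < a l).card + (if 0 < a i' then 1 else 0) = P :=
        card_er (fun l => 0 < a l) i'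
      have hlam0 : lam ≠ 0 := by
        rintro rfl
        obtain ⟨l, hl'⟩ : ∃ l : Fin k, l ≠ i' := by
          have : Nontrivial (Fin k) := Fin.nontrivial_iff_two_le.mpr (by omega)
          exact exists_ne i'
        have h1 := hl l hl'
        rw [zero_mul] at h1
        exact ha l (by exact_mod_cast h1)
      rcases lt_or_gt_of_ne hlam0 with hneg' | hpos'
      · -- negative: impossible
        exfalso
        have h1 := card_tr hτ (fun l => 0 < a l) (fun l => a l < 0) (by
          intro l hll
          have h2 := hl l hll
          constructor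
          · intro h3
            by_contra h4
            have h5 : (0 : ℚ) ≤ (a (τ l) : ℚ) := by exact_mod_cast not_lt.mp h4
            have h6 : (0 : ℚ) < (a l : ℚ) := by exact_mod_cast h3
            nlinarith
          · intro h3
            have h5 : (a (τ l) : ℚ) < 0 := by exact_mod_cast h3
            have h6 : (0 : ℚ) < (a l : ℚ) := by rw [h2]; nlinarith
            exact_mod_cast h6)
        rw [h1] at ep'
        rcases hi with ⟨h2, h3⟩ | ⟨h2, h3⟩
        · rw [if_pos h2] at en
          split_ifs at ep' <;> omega
        · rw [if_neg (by omega)] at en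
          split_ifs at ep' <;> omega
      · refine ⟨hpos', ?_⟩
        have h1 := card_tr hτ (fun l => 0 < a l) (fun l => 0 < a l) (by
          intro l hll
          have h2 := hl l hll
          constructor
          · intro h3
            by_contra h4
            have h5 : (a (τ l) : ℚ) ≤ 0 := by exact_mod_cast not_lt.mp h4
            have h6 : (0 : ℚ) < (a l : ℚ) := by exact_mod_cast h3
            nlinarith
          · intro h3
            have h5 : (0 : ℚ) < (a (τ l) : ℚ) := by exact_mod_cast h3
            have h6 : (0 : ℚ) < (a l : ℚ) := by rw [h2]; positivity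
            exact_mod_cast h6)
        rw [h1] at ep'
        have hi' := ha i'
        have hii := ha i
        by_cases hs : 0 < a i
        · rw [if_pos hs] at ep
          have : 0 < a i' := by
            by_contra h4
            rw [if_neg h4] at ep'
            omega
          positivity
        · rw [if_neg hs] at ep
          have : ¬ 0 < a i' := by
            intro h4
            rw [if_pos h4] at ep'
            omega
          have h7 : a i < 0 := by omega
          have h8 : a i' < 0 := by omega
          exact mul_pos_of_neg_of_neg h7 h8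
  by_cases h2 : 2 ≤ M
  · obtain ⟨i, hi⟩ := Finset.card_pos.mp (show 0 < M by omega)
    simp only [mem_filter, mem_univ, true_and] at hi
    exact ⟨i, key i (Or.inl ⟨hi, h2⟩)⟩
  · obtain ⟨i, hi⟩ := Finset.card_pos.mp (show 0 < P by omega)
    simp only [mem_filter, mem_univ, true_and] at hi
    exact ⟨i, key i (Or.inr ⟨hi, by omega⟩)⟩

theorem choice_neg (a : Fin k → ℤ) (i : Fin k) (h : Choice (fun l => - a l) i) : Choice a i := by
  obtain ⟨⟨m, hm, h1⟩, ⟨m', hm', h2⟩, h3⟩ := h
  beta_reduce at h1 h2
  refine ⟨⟨m', hm', by omega⟩, ⟨m, hm, by omega⟩, ?_⟩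
  intro i' τ lam hτ hl
  have h4 := h3 i' τ lam hτ (by
    intro l hll
    have := hl l hll
    push_cast
    rw [this]
    ring)
  refine ⟨h4.1, ?_⟩
  have := h4.2
  simpa using this

end CH94

theorem exists_choice {k : ℕ} (hk : Odd k) (h5 : 5 ≤ k) (a : Fin k → ℤ) (ha : ∀ l, a l ≠ 0)
    (hp : ∃ m, 0 < a m) (hn : ∃ m, a m < 0) : ∃ i, Choice a i := by
  have hsum : (univ.filter fun l => 0 < a l).card + (univ.filter fun l => a l < 0).card = k := by
    have h1 := Finset.card_filter_add_card_filter_not (s := (univ : Finset (Fin k)))
      (p := fun l => 0 < a l)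
    rw [Finset.card_univ, Fintype.card_fin] at h1
    have h2 : (univ.filter fun l => ¬ 0 < a l) = univ.filter fun l => a l < 0 := by
      ext l
      simp only [mem_filter, mem_univ, true_and]
      have := ha l
      omega
    rw [h2] at h1
    exact h1
  have hP : 1 ≤ (univ.filter fun l => 0 < a l).card := by
    obtain ⟨m, hm⟩ := hp
    exact Finset.card_pos.mpr ⟨m, by simpa using hm⟩
  have hM : 1 ≤ (univ.filter fun l => a l < 0).card := by
    obtain ⟨m, hm⟩ := hn
    exact Finset.card_pos.mpr ⟨m, by simpa using hm⟩
  obtain ⟨t, ht⟩ := hk
  rcases lt_or_ge (univ.filter fun l => a l < 0).card (univ.filter fun l => 0 < a l).card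
    with h | h
  · exact CH94.main a ha h5 hM h
  · obtain ⟨i, hi⟩ := CH94.main (fun l => - a l) (fun l => neg_ne_zero.mpr (ha l)) h5
      (by simpa using hP) (by
        have : (univ.filter fun l => 0 < a l).card < (univ.filter fun l => a l < 0).card := by
          omega
        simpa using this)
    exact ⟨i, CH94.choice_neg a i hi⟩

end Pool.Agent.OddU
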