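import Mathlib

set_option autoImplicit false

namespace Pool.Agent.OddU

open Finset

/-- Laurent polynomials over the reals. -/
abbrev LP := AddMonoidAlgebra ℝ ℤ

/-- the ring homomorphism `T ^ x ↦ T ^ (c x)` -/
noncomputable def phi (c : ℤ) : LP →+* LP :=
  AddMonoidAlgebra.mapDomainRingHom ℝ (AddMonoidHom.mulLeft c)

/-- the monomial `T ^ c` -/
noncomputable def mono (c : ℤ) : LP := AddMonoidAlgebra.single c (1 : ℝ)

/-- `1 - T ^ c` -/
noncomputable def dif (c : ℤ) : LP := 1 - mono c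

/-- the indicator of the interval `(α, β]` -/
noncomputable def ind (α β : ℤ) : LP := ∑ x ∈ Finset.Ioc α β, mono x

/-- the bracket: the coefficient of `T ^ 0` in `∏ φ_{a l} (F l)`, i.e. the sum over all integer
solutions `x` of `∑ a l * x l = 0` of `∏ (F l).coeff (x l)` -/
noncomputable def br {k : ℕ} (a : Fin k → ℤ) (F : Fin k → LP) : ℝ :=
  (∏ l, phi (a l) (F l)).coeff 0

/-- the test function: `(1 - T ^ (h q)) ^ k` times the indicator of `(B q, B q + q]` -/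
noncomputable def bump (k : ℕ) (h B q : ℤ) : LP := dif (h * q) ^ k * ind (B * q) (B * q + q)

/-- `∑ |a l|` -/
def AA {k : ℕ} (a : Fin k → ℤ) : ℤ := ∑ l, |a l|

/-- `∏ |a l|` -/
def LL {k : ℕ} (a : Fin k → ℤ) : ℤ := ∏ l, |a l|

/-- the shift `h = 2 (A + 1) L` -/
def hh {k : ℕ} (a : Fin k → ℤ) : ℤ := 2 * (AA a + 1) * LL a

/-- the number of shifts of the extreme bump of index `m` -/
def JJ {k : ℕ} (a : Fin k → ℤ) (i m : Fin k) : ℤ := if (a i).sign * a m < 0 then k else 0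

/-- the separation constant -/
def KK {k : ℕ} (a : Fin k → ℤ) : ℤ := AA a * (2 + k * hh a + AA a * hh a)

/-- all fibres of `τ` on `S` have even size -/
def EvenOn {k : ℕ} (S : Finset (Fin k)) (τ : Fin k → Fin k) : Prop :=
  ∀ m, Even ((S.filter (fun l => τ l = m)).card)

/-- the value of the equation at the centres -/
def ZZ {k : ℕ} (a B : Fin k → ℤ) (S : Finset (Fin k)) (τ : Fin k → Fin k) (e : Fin k → ℤ) : ℤ :=
  ∑ l ∈ S, a l * B (τ l) + ∑ v ∈ Sᶜ, a v * e v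

/-- `τ` is a bijection from the complement of `i'` onto the complement of `i` -/
def Bij {k : ℕ} (i i' : Fin k) (τ : Fin k → Fin k) : Prop :=
  Set.BijOn τ {l | l ≠ i'} {m | m ≠ i}

/-- generic data -/
structure Good {k : ℕ} (a : Fin k → ℤ) (i : Fin k) (N : ℤ) (B W : Fin k → ℤ) : Prop where
  hB : ∀ m, 0 ≤ B m ∧ B m + 1 + k * hh a ≤ N
  hW : ∀ v, 2 * N < W v
  far : ∀ (S : Finset (Fin k)) (τ : Fin k → Fin k) (e : Fin k → ℤ), (∀ l ∈ S, τ l ≠ i) →
    EvenOn S τ → (∀ v ∉ S, e v = 0 ∨ e v = N ∨ e v = W v ∨ e v = - W v ∨ e v = 2 * N - W v) →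
    (∃ v ∉ S, e v ≠ 0 ∧ e v ≠ N) → KK a < |ZZ a B S τ e|
  cen : ∀ (S : Finset (Fin k)) (τ : Fin k → Fin k) (e : Fin k → ℤ), (∀ l ∈ S, τ l ≠ i) →
    EvenOn S τ → (∀ v ∉ S, e v = 0 ∨ e v = N) → KK a < |ZZ a B S τ e| ∨
      ((∀ m, ∑ l ∈ S.filter (fun l => τ l = m), a l = 0) ∧ ∑ v ∈ Sᶜ, a v * e v = 0)
  bij : ∀ (i' : Fin k) (τ : Fin k → Fin k) (e : ℤ), Bij i i' τ → (e = 0 ∨ e = N) →
    KK a < |∑ l ∈ univ.erase i', a l * B (τ l) + a i' * e| ∨
      (e = 0 ∧ ∃ lam : ℚ, ∀ l, l ≠ i' → (a l : ℚ) = lam * (a (τ l) : ℚ))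
  ext : ∑ m ∈ univ.erase i, a m * B m
    = - (a i).sign * ((AA a + 1) * LL a) - hh a * ∑ m ∈ univ.erase i, a m * JJ a i m

/-- the good choice of the free index -/
def Choice {k : ℕ} (a : Fin k → ℤ) (i : Fin k) : Prop :=
  (∃ m, m ≠ i ∧ 0 < a m) ∧ (∃ m, m ≠ i ∧ a m < 0) ∧
  ∀ (i' : Fin k) (τ : Fin k → Fin k) (lam : ℚ), Bij i i' τ →
    (∀ l, l ≠ i' → (a l : ℚ) = lam * (a (τ l) : ℚ)) → 0 < lam ∧ 0 < a i * a i'

/-- the sum over the solutions of the product of the test functions `τ l` on `S` and of the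
indicator of `[1, N q]` outside `S` -/
noncomputable def TT {k : ℕ} (a : Fin k → ℤ) (N : ℤ) (B : Fin k → ℤ) (q : ℕ)
    (S : Finset (Fin k)) (τ : Fin k → Fin k) : ℝ :=
  br a (fun l => if l ∈ S then bump k (hh a) (B (τ l)) q else ind 0 (N * q))

/-- the sign of the extreme product -/
def sg {k : ℕ} (a : Fin k → ℤ) (i : Fin k) : ℝ :=
  ∏ m ∈ univ.erase i, (if (a i).sign * a m < 0 then (-1 : ℝ) else 1)

/-- `x` is a solution in `[n]`; the element `v : Fin n` stands for the integer `v + 1`. -/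
def IsSol {k : ℕ} (a : Fin k → ℤ) {n : ℕ} (x : Fin k → Fin n) : Prop :=
  ∑ i, a i * (((x i : ℕ) : ℤ) + 1) = 0

/-- `M_E(c)`: the number of monochromatic solutions in `[n]` under the colouring `c`. -/
noncomputable def monoCount {k : ℕ} (a : Fin k → ℤ) {n r : ℕ} (c : Fin n → Fin r) : ℕ :=
  Nat.card {x : Fin k → Fin n // IsSol a x ∧ ∀ i j, c (x i) = c (x j)}

/-- `R_E(n,r)`: the average of `monoCount` over all `r ^ n` colourings. -/
noncomputable def expectedMono {k : ℕ} (a : Fin k → ℤ) (n r : ℕ) : ℝ :=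
  (∑ c : Fin n → Fin r, (monoCount a c : ℝ)) / (r : ℝ) ^ n

/-- `E` is `r`-common. -/
def IsCommon (r : ℕ) {k : ℕ} (a : Fin k → ℤ) : Prop :=
  ∀ ε : ℝ, 0 < ε → ∃ N : ℕ, ∀ n : ℕ, N ≤ n → ∀ c : Fin n → Fin r,
    (1 - ε) * expectedMono a n r ≤ (monoCount a c : ℝ)

end Pool.Agent.OddU
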