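import Pool.Agent.OddU.Defs

set_option autoImplicit false

namespace Pool.Agent.OddU.R87

open Finset

theorem AA_nonneg {k : ℕ} (a : Fin k → ℤ) : 0 ≤ AA a :=
  Finset.sum_nonneg fun _ _ => abs_nonneg _

theorem LL_pos {k : ℕ} (a : Fin k → ℤ) (ha : ∀ l, a l ≠ 0) : 0 < LL a :=
  Finset.prod_pos fun l _ => abs_pos.2 (ha l)

theorem hh_pos {k : ℕ} (a : Fin k → ℤ) (ha : ∀ l, a l ≠ 0) : 0 < hh a := by
  have h1 := AA_nonneg a
  have h2 := LL_pos a ha
  unfold hh
  positivity

theorem ind_split {x y : ℤ} (h0 : 0 ≤ x) (h1 : x ≤ y) : ind 0 x = ind 0 y - ind x y := by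
  have h : ind 0 y = ind 0 x + ind x y := by
    unfold ind
    rw [← Finset.sum_union]
    · congr 1
      ext t
      simp only [Finset.mem_union, Finset.mem_Ioc]
      omega
    · rw [Finset.disjoint_left]
      intro t ht ht'
      simp only [Finset.mem_Ioc] at ht ht'
      omega
  rw [h]
  abel

theorem prod_unit {ι : Type} (s : Finset ι) (e : ι → LP) (he : ∀ i ∈ s, e i = 1 ∨ e i = -1) :
    ∏ i ∈ s, e i = 1 ∨ ∏ i ∈ s, e i = -1 := by
  classical
  induction s using Finset.induction_on with
  | empty => left; simp
  | insert j s hj ih =>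
    rw [Finset.prod_insert hj]
    rcases he j (Finset.mem_insert_self _ _) with h | h <;>
    rcases ih (fun i hi => he i (Finset.mem_insert_of_mem hi)) with h' | h' <;>
    rw [h, h'] <;> simp

/-- expansion of the bracket -/
theorem br_expand {k : ℕ} (a : Fin k → ℤ) (S : Finset (Fin k)) (P X Y : Fin k → LP) (M : ℝ)
    (hM : ∀ p : Fin k → Bool,
      |br a (fun l => if l ∈ S then P l else if p l then Y l else X l)| ≤ M) :
    |br a (fun l => if l ∈ S then P l else X l - Y l)| ≤ 2 ^ k * M := by
  classical
  let f : Fin k → Bool → LP := fun l b =>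
    if l ∈ S then (if b then 0 else P l) else (if b then - Y l else X l)
  have h1 : ∀ l, (if l ∈ S then P l else X l - Y l) = ∑ b : Bool, f l b := by
    intro l
    rw [Fintype.sum_bool]
    by_cases hl : l ∈ S
    · simp [f, hl]
    · simp [f, hl]; abel
  have h2 : ∏ l, phi (a l) (if l ∈ S then P l else X l - Y l) =
      ∑ p : Fin k → Bool, ∏ l, phi (a l) (f l (p l)) := by
    simp_rw [h1, map_sum]
    rw [Finset.prod_univ_sum, Fintype.piFinset_univ]
  have hM0 : 0 ≤ M := (abs_nonneg _).trans (hM fun _ => false)
  have h3 : ∀ p : Fin k → Bool, |(∏ l, phi (a l) (f l (p l))).coeff 0| ≤ M := by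
    intro p
    by_cases hp : ∃ l ∈ S, p l = true
    · obtain ⟨l, hl, hpl⟩ := hp
      have : ∏ l, phi (a l) (f l (p l)) = 0 := by
        apply Finset.prod_eq_zero (Finset.mem_univ l)
        simp [f, hl, hpl]
      rw [this]
      simpa using hM0
    · push Not at hp
      have h4 : ∀ l, phi (a l) (f l (p l)) = (if l ∈ S then 1 else if p l then -1 else 1) *
          phi (a l) (if l ∈ S then P l else if p l then Y l else X l) := by
        intro l
        by_cases hl : l ∈ S
        · have := hp l hl
          simp only [Bool.not_eq_true] at this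
          simp [f, hl, this]
        · cases hpl : p l <;> simp [f, hl]
      have h5 : ∏ l, phi (a l) (f l (p l)) =
          (∏ l, (if l ∈ S then 1 else if p l then -1 else 1 : LP)) *
          ∏ l, phi (a l) (if l ∈ S then P l else if p l then Y l else X l) := by
        rw [← Finset.prod_mul_distrib]
        exact Finset.prod_congr rfl fun l _ => h4 l
      have h6 := prod_unit (Finset.univ : Finset (Fin k))
        (fun l => (if l ∈ S then 1 else if p l then -1 else 1 : LP)) (fun l _ => by
          by_cases hl : l ∈ S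
          · simp [hl]
          · cases hpl : p l <;> simp [hl])
      have h7 := hM p
      unfold br at h7
      rw [h5]
      rcases h6 with h6 | h6
      · rw [h6, one_mul]
        exact h7
      · rw [h6, neg_one_mul]
        have : (-(∏ l, phi (a l) (if l ∈ S then P l else if p l then Y l else X l))).coeff 0 =
            - (∏ l, phi (a l) (if l ∈ S then P l else if p l then Y l else X l)).coeff 0 := rfl
        rw [this, abs_neg]
        exact h7
  unfold br
  rw [h2, AddMonoidAlgebra.coeff_sum, Finsupp.finsetSum_apply]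
  calc |∑ p : Fin k → Bool, (∏ l, phi (a l) (f l (p l))).coeff 0|
      ≤ ∑ p : Fin k → Bool, |(∏ l, phi (a l) (f l (p l))).coeff 0| :=
        Finset.abs_sum_le_sum_abs _ _
    _ ≤ ∑ _p : Fin k → Bool, M := Finset.sum_le_sum fun p _ => h3 p
    _ = 2 ^ k * M := by
        rw [Finset.sum_const, Finset.card_univ, Fintype.card_fun, Fintype.card_bool,
          Fintype.card_fin, nsmul_eq_mul]
        push_cast
        ring

/-- the row, with the rows it uses as hypotheses -/
theorem even_aux {k : ℕ} (a : Fin k → ℤ) (ha : ∀ l, a l ≠ 0) (i : Fin k) (N : ℤ)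
    (B W : Fin k → ℤ) (hG : Good a i N B W) (C : ℝ) (q : ℕ) (hq : 0 < q)
    (S : Finset (Fin k)) (τ : Fin k → Fin k) (hS : S.Nonempty) (hτ : ∀ l ∈ S, τ l ≠ i)
    (hE : EvenOn S τ)
    (absorb : ∀ (B' : Fin k → ℤ) (F : Fin k → LP)
      (_ : ∀ l ∈ S, F l = bump k (hh a) (B' l) q) (α β : Fin k → ℤ)
      (_ : ∀ v ∉ S, α v ≤ β v) (_ : ∀ v ∉ S, F v = ind (α v) (β v))
      (_ : ∀ x : Fin k → ℤ, (∀ l ∈ S, B' l * q ≤ x l ∧ x l ≤ (B' l + 1 + k * hh a) * q) →
        (∀ v ∉ S, |x v - α v| ≤ AA a * hh a * q ∨ |x v - β v| ≤ AA a * hh a * q) →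
        ∑ l, a l * x l ≠ 0), br a F = 0)
    (no_sol : ∀ (e α : Fin k → ℤ) (_ : ∀ v ∉ S, |α v - e v * q| ≤ 1)
      (_ : KK a < |ZZ a B S τ e|)
      (x : Fin k → ℤ) (_ : ∀ l ∈ S, B (τ l) * q ≤ x l ∧ x l ≤ (B (τ l) + 1 + k * hh a) * q)
      (_ : ∀ v ∉ S, |x v - α v| ≤ AA a * hh a * q), ∑ l, a l * x l ≠ 0)
    (parity : ∀ (z : Fin k → ℤ), (∀ v, z v = 0 ∨ z v = N) →
      (∀ m, ∑ l ∈ S.filter (fun l => τ l = m), a l = 0) → ∑ v ∈ Sᶜ, a v * z v = 0 →
      |br a (fun l => if l ∈ S then bump k (hh a) (B (τ l)) q else ind (z l * q) (W l * q))|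
        ≤ C * (q : ℝ) ^ (k - 2)) :
    |TT a N B q S τ| ≤ 2 ^ k * (max C 0) * (q : ℝ) ^ (k - 2) := by
  classical
  have hh0 := hh_pos a ha
  obtain ⟨l₀, hl₀⟩ := hS
  have hkpos : 0 < k := l₀.pos
  have hN : 0 < N := by
    have h1 := hG.hB l₀
    have h2 : 0 ≤ (k : ℤ) * hh a := by positivity
    omega
  have hq' : (0 : ℤ) < q := by exact_mod_cast hq
  have hWN : ∀ v, N < W v := fun v => by have := hG.hW v; omega
  have hfun : (fun l => if l ∈ S then bump k (hh a) (B (τ l)) q else ind 0 (N * q)) =
      (fun l => if l ∈ S then bump k (hh a) (B (τ l)) q else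
        ind 0 (W l * q) - ind (N * q) (W l * q)) := by
    funext l
    by_cases hl : l ∈ S
    · simp [hl]
    · simp only [hl, if_false]
      exact ind_split (by positivity) (mul_le_mul_of_nonneg_right (hWN l).le hq'.le)
  unfold TT
  rw [hfun, mul_assoc]
  refine br_expand a S (fun l => bump k (hh a) (B (τ l)) q) (fun l => ind 0 (W l * q))
    (fun l => ind (N * q) (W l * q)) (max C 0 * (q : ℝ) ^ (k - 2)) (fun p => ?_)
  have hMM : C * (q : ℝ) ^ (k - 2) ≤ max C 0 * (q : ℝ) ^ (k - 2) :=
    mul_le_mul_of_nonneg_right (le_max_left _ _) (by positivity)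
  set z : Fin k → ℤ := fun l => if p l then N else 0 with hz
  have hz' : ∀ v, z v = 0 ∨ z v = N := fun v => by
    simp only [hz]; split_ifs
    · exact Or.inr rfl
    · exact Or.inl rfl
  have hfun2 : (fun l => if l ∈ S then bump k (hh a) (B (τ l)) q else
      if p l then ind (N * q) (W l * q) else ind 0 (W l * q)) =
      (fun l => if l ∈ S then bump k (hh a) (B (τ l)) q else ind (z l * q) (W l * q)) := by
    funext l
    by_cases hl : l ∈ S
    · simp [hl]
    · simp only [hl, if_false, hz]
      cases hpl : p l <;> simp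
  rw [hfun2]
  by_cases h0 : (∀ m, ∑ l ∈ S.filter (fun l => τ l = m), a l = 0) ∧ ∑ v ∈ Sᶜ, a v * z v = 0
  · exact (parity z hz' h0.1 h0.2).trans hMM
  · have hbr : br a (fun l => if l ∈ S then bump k (hh a) (B (τ l)) q
        else ind (z l * q) (W l * q)) = 0 := by
      refine absorb (fun l => B (τ l)) _ (fun l hl => by simp [hl]) (fun v => z v * q)
        (fun v => W v * q) (fun v _ => ?_) (fun v hv => by simp [hv]) (fun x hx hy => ?_)
      · apply mul_le_mul_of_nonneg_right _ hq'.le
        have := hWN v
        rcases hz' v with h | h <;> rw [h] <;> omega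
      · set e : Fin k → ℤ := fun v => if |x v - z v * q| ≤ AA a * hh a * q then z v else W v
          with he
        have he' : ∀ v, e v = z v ∨ e v = W v := fun v => by
          simp only [he]; split_ifs
          · exact Or.inl rfl
          · exact Or.inr rfl
        refine no_sol e (fun v => e v * q) (fun v _ => by simp) ?_ x hx (fun v hv => ?_)
        · by_cases hall : ∀ v ∉ S, e v = z v
          · rcases hG.cen S τ e hτ hE (fun v hv => by rw [hall v hv]; exact hz' v) with h | h
            · exact h
            · exfalso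
              apply h0
              refine ⟨h.1, ?_⟩
              rw [← h.2]
              exact Finset.sum_congr rfl fun v hv => by
                rw [hall v (Finset.mem_compl.1 hv)]
          · push Not at hall
            obtain ⟨v, hv, hev⟩ := hall
            refine hG.far S τ e hτ hE (fun u _ => ?_) ⟨v, hv, ?_⟩
            · rcases he' u with h | h
              · rw [h]
                rcases hz' u with h' | h'
                · exact Or.inl h'
                · exact Or.inr (Or.inl h')
              · exact Or.inr (Or.inr (Or.inl h))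
            · have h1 : e v = W v := (he' v).resolve_left hev
              have h2 := hG.hW v
              rw [h1]
              constructor <;> omega
        · rcases hy v hv with h | h
          · have : e v = z v := by simp only [he]; rw [if_pos h]
            simpa [this] using h
          · by_cases h' : |x v - z v * q| ≤ AA a * hh a * q
            · have : e v = z v := by simp only [he]; rw [if_pos h']
              simpa [this] using h'
            · have : e v = W v := by simp only [he]; rw [if_neg h']
              simpa [this] using h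
    rw [hbr, abs_zero]
    positivity

end Pool.Agent.OddU.R87
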