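import Pool.Agent.OddU.Defs

set_option autoImplicit false

/-! Generic data: `N`, `B`, `W` are polynomials in a large number `X` with distinct powers,
multiplied by a large factor `Q`; one `B p` is corrected to get the prescribed small value. -/

namespace Pool.Agent.OddU.Gen51

open Finset

theorem digits {ι : Type} [Fintype ι] (ex : ι → ℕ) (hinj : Function.Injective ex) (d : ι → ℤ)
    (X : ℤ) (hX : 0 < X) (hd : ∀ j, |d j| < X) (hsum : ∑ j, d j * X ^ (ex j) = 0) :
    ∀ j, d j = 0 := by
  classical
  by_contra hcon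
  push Not at hcon
  obtain ⟨j0, hj0⟩ := hcon
  obtain ⟨j, hj, hmin⟩ := Finset.exists_min_image (univ.filter (fun j => d j ≠ 0)) ex
    ⟨j0, by simp [hj0]⟩
  have hjd : d j ≠ 0 := by simpa using hj
  have h1 : X ^ (ex j + 1) ∣ ∑ l ∈ univ.erase j, d l * X ^ (ex l) := by
    apply Finset.dvd_sum
    intro l hl
    by_cases hl0 : d l = 0
    · simp [hl0]
    · have h2 : ex j ≤ ex l := hmin l (by simp [hl0])
      have h3 : ex j ≠ ex l := fun h => (Finset.ne_of_mem_erase hl) (hinj h).symm
      exact Dvd.dvd.mul_left (pow_dvd_pow X (by omega)) _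
  rw [← Finset.add_sum_erase _ _ (mem_univ j)] at hsum
  have h4 : X ^ (ex j + 1) ∣ d j * X ^ (ex j) := by
    have h6 : d j * X ^ (ex j) = - ∑ l ∈ univ.erase j, d l * X ^ (ex l) := by linarith
    rw [h6]
    exact (dvd_neg).2 h1
  have h5 : X ∣ d j := by
    rw [pow_succ, mul_comm (d j)] at h4
    exact (mul_dvd_mul_iff_left (pow_ne_zero _ hX.ne')).1 h4
  exact hjd (Int.eq_zero_of_abs_lt_dvd h5 (hd j))

variable {k : ℕ}

/-- the powers -/
def bb (X : ℤ) (n m : Fin k) : ℤ := X ^ (if m = n then k else (m : ℕ))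

/-- the centres before scaling -/
def cc (a : Fin k → ℤ) (X : ℤ) (i p n m : Fin k) : ℤ :=
  if m = p then - ∑ j ∈ (univ.erase i).erase p, a j * bb X n j else a p * bb X n m

theorem sum_cc (a : Fin k → ℤ) (X : ℤ) (i p n : Fin k) (hpi : p ≠ i) (φ : Fin k → ℤ)
    (hφ : φ i = 0) : ∑ m, φ m * cc a X i p n m
      = ∑ m ∈ (univ.erase i).erase p, (a p * φ m - a m * φ p) * bb X n m := by
  rw [← Finset.add_sum_erase _ _ (mem_univ i), hφ, zero_mul, zero_add,
    ← Finset.add_sum_erase _ _ (show p ∈ univ.erase i from mem_erase.2 ⟨hpi, mem_univ _⟩)]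
  have h1 : cc a X i p n p = - ∑ j ∈ (univ.erase i).erase p, a j * bb X n j := by
    unfold cc; rw [if_pos rfl]
  have h2 : ∑ m ∈ (univ.erase i).erase p, φ m * cc a X i p n m
      = ∑ m ∈ (univ.erase i).erase p, φ m * (a p * bb X n m) := by
    apply Finset.sum_congr rfl
    intro m hm
    have : m ≠ p := Finset.ne_of_mem_erase hm
    unfold cc; rw [if_neg this]
  rw [h1, h2, mul_neg, Finset.mul_sum, ← Finset.sum_neg_distrib, ← Finset.sum_add_distrib]
  apply Finset.sum_congr rfl
  intro m _
  ring

/-- the fibre sums -/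
def ff (a : Fin k → ℤ) (S : Finset (Fin k)) (τ : Fin k → Fin k) (m : Fin k) : ℤ :=
  ∑ l ∈ S.filter (fun l => τ l = m), a l

theorem sum_fib (a B : Fin k → ℤ) (S : Finset (Fin k)) (τ : Fin k → Fin k) :
    ∑ l ∈ S, a l * B (τ l) = ∑ m, ff a S τ m * B m := by
  rw [← Finset.sum_fiberwise S τ (fun l => a l * B (τ l))]
  apply Finset.sum_congr rfl
  intro m _
  unfold ff
  rw [Finset.sum_mul]
  apply Finset.sum_congr rfl
  intro l hl
  rw [(Finset.mem_filter.1 hl).2]

theorem abs_le_AA (a : Fin k → ℤ) (l : Fin k) : |a l| ≤ AA a :=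
  Finset.single_le_sum (f := fun l => |a l|) (fun _ _ => abs_nonneg _) (mem_univ l)

theorem abs_sum_le_AA (a : Fin k → ℤ) (T : Finset (Fin k)) (c : Fin k → ℤ) (C : ℤ) (hC : 0 ≤ C)
    (hc : ∀ l ∈ T, |c l| ≤ C) : |∑ l ∈ T, a l * c l| ≤ C * AA a := by
  calc |∑ l ∈ T, a l * c l| ≤ ∑ l ∈ T, |a l * c l| := Finset.abs_sum_le_sum_abs _ _
    _ ≤ ∑ l ∈ T, C * |a l| := by
        apply Finset.sum_le_sum
        intro l hl
        rw [abs_mul, mul_comm]
        exact mul_le_mul_of_nonneg_right (hc l hl) (abs_nonneg _)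
    _ ≤ ∑ l, C * |a l| := Finset.sum_le_sum_of_subset_of_nonneg (Finset.subset_univ _)
        (fun l _ _ => mul_nonneg hC (abs_nonneg _))
    _ = C * AA a := by rw [← Finset.mul_sum]; rfl

theorem ff_le (a : Fin k → ℤ) (S : Finset (Fin k)) (τ : Fin k → Fin k) (m : Fin k) :
    |ff a S τ m| ≤ AA a := by
  have := abs_sum_le_AA a (S.filter (fun l => τ l = m)) (fun _ => 1) 1 (by norm_num)
    (fun _ _ => by simp)
  simpa [ff] using this

/-- the generic alternative -/
theorem alt (a : Fin k → ℤ) (i p n : Fin k) (hpi : p ≠ i) (X Q ρ : ℤ)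
    (hX : 2 * AA a ^ 2 + 2 * AA a + 2 < X) (hQ : KK a + AA a * |ρ| < Q)
    (S : Finset (Fin k)) (τ : Fin k → Fin k) (hτ : ∀ l ∈ S, τ l ≠ i) (e ν ω : Fin k → ℤ)
    (hν : ∀ v ∉ S, |ν v| ≤ 2) (hω : ∀ v ∉ S, |ω v| ≤ 1)
    (he : ∀ v ∉ S, e v = (ν v * X ^ (k + 1) + ω v * X ^ (k + 2 + (v : ℕ))) * Q)
    (ha : ∀ l, a l ≠ 0) :
    KK a < |ZZ a (fun m => cc a X i p n m * Q + (if m = p then ρ else 0)) S τ e| ∨
      ((∀ m, m ≠ i → a p * ff a S τ m = a m * ff a S τ p) ∧ ∑ v ∈ Sᶜ, a v * ν v = 0 ∧
        ∀ v ∉ S, ω v = 0) := by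
  classical
  have hA0 : 0 ≤ AA a := Finset.sum_nonneg (fun _ _ => abs_nonneg _)
  have hX0 : 0 < X := by nlinarith
  set φ := ff a S τ with hφdef
  have hφi : φ i = 0 := by
    rw [hφdef]; unfold ff
    rw [Finset.filter_eq_empty_iff.2 (fun l hl => hτ l hl)]; simp
  set Z0 : ℤ := ∑ m, φ m * cc a X i p n m + (∑ v ∈ Sᶜ, a v * ν v) * X ^ (k + 1)
    + ∑ v ∈ Sᶜ, a v * ω v * X ^ (k + 2 + (v : ℕ)) with hZ0
  have hZ : ZZ a (fun m => cc a X i p n m * Q + (if m = p then ρ else 0)) S τ e
      = Q * Z0 + ρ * φ p := by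
    unfold ZZ
    rw [sum_fib a (fun m => cc a X i p n m * Q + (if m = p then ρ else 0)) S τ]
    have h1 : ∑ v ∈ Sᶜ, a v * e v
        = Q * ((∑ v ∈ Sᶜ, a v * ν v) * X ^ (k + 1)
          + ∑ v ∈ Sᶜ, a v * ω v * X ^ (k + 2 + (v : ℕ))) := by
      rw [Finset.sum_mul, ← Finset.sum_add_distrib, Finset.mul_sum]
      apply Finset.sum_congr rfl
      intro v hv
      rw [he v (by simpa using hv)]
      ring
    have h2 : ∑ m, ff a S τ m * (cc a X i p n m * Q + (if m = p then ρ else 0))
        = Q * (∑ m, φ m * cc a X i p n m) + ρ * φ p := by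
      have h3 : ∀ m, ff a S τ m * (cc a X i p n m * Q + (if m = p then ρ else 0))
          = Q * (φ m * cc a X i p n m) + (if m = p then ρ * φ m else 0) := by
        intro m
        rw [hφdef]
        split_ifs <;> ring
      rw [Finset.sum_congr rfl (fun m _ => h3 m), Finset.sum_add_distrib, ← Finset.mul_sum,
        Finset.sum_ite_eq' univ p (fun m => ρ * φ m), if_pos (mem_univ p)]
    rw [h1, h2, hZ0]
    ring
  by_cases hz : Z0 = 0
  · right
    have hs := sum_cc a X i p n hpi φ hφi
    rw [hs] at hZ0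
    -- digits
    have key := digits (ι := Fin k ⊕ Unit ⊕ Fin k)
      (Sum.elim (fun m : Fin k => if m = n then k else (m : ℕ))
        (Sum.elim (fun _ => k + 1) (fun v : Fin k => k + 2 + (v : ℕ))))
      (by
        rintro (m | u | v) (m' | u' | v') h
        · simp only [Sum.elim_inl] at h
          have := m.isLt
          have := m'.isLt
          congr 1
          split_ifs at h with h1 h2 h2
          · rw [h1, h2]
          · omega
          · omega
          · exact Fin.ext h
        · simp only [Sum.elim_inl, Sum.elim_inr] at h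
          have := m.isLt
          split_ifs at h <;> omega
        · simp only [Sum.elim_inl, Sum.elim_inr] at h
          have := m.isLt
          split_ifs at h <;> omega
        · simp only [Sum.elim_inl, Sum.elim_inr] at h
          have := m'.isLt
          split_ifs at h <;> omega
        · rfl
        · simp only [Sum.elim_inl, Sum.elim_inr] at h
          omega
        · simp only [Sum.elim_inl, Sum.elim_inr] at h
          have := m'.isLt
          split_ifs at h <;> omega
        · simp only [Sum.elim_inl, Sum.elim_inr] at h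
          omega
        · simp only [Sum.elim_inr] at h
          congr 2
          exact Fin.ext (by omega))
      (Sum.elim (fun m => if m ∈ (univ.erase i).erase p then a p * φ m - a m * φ p else 0)
        (Sum.elim (fun _ => ∑ v ∈ Sᶜ, a v * ν v)
          (fun v => if v ∈ Sᶜ then a v * ω v else 0))) X hX0
      (by
        rintro (m | u | v)
        · simp only [Sum.elim_inl]
          split_ifs
          · have h1 : |a p * φ m - a m * φ p| ≤ |a p * φ m| + |a m * φ p| := abs_sub _ _
            have h2 : |a p * φ m| ≤ AA a * AA a := by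
              rw [abs_mul]
              exact mul_le_mul (abs_le_AA a p) (ff_le a S τ m) (abs_nonneg _) hA0
            have h3 : |a m * φ p| ≤ AA a * AA a := by
              rw [abs_mul]
              exact mul_le_mul (abs_le_AA a m) (ff_le a S τ p) (abs_nonneg _) hA0
            nlinarith
          · simpa using hX0
        · simp only [Sum.elim_inl, Sum.elim_inr]
          have h1 := abs_sum_le_AA a Sᶜ ν 2 (by norm_num) (fun l hl => hν l (by simpa using hl))
          nlinarith
        · simp only [Sum.elim_inr]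
          split_ifs with hv
          · have h1 : |a v * ω v| ≤ AA a * 1 := by
              rw [abs_mul]
              exact mul_le_mul (abs_le_AA a v) (hω v (by simpa using hv)) (abs_nonneg _) hA0
            nlinarith
          · simpa using hX0)
      (by
        rw [Fintype.sum_sum_type, Fintype.sum_sum_type]
        simp only [Sum.elim_inl, Sum.elim_inr, Finset.univ_unique, Finset.sum_singleton]
        rw [hz] at hZ0
        rw [← add_assoc]
        refine Eq.trans ?_ hZ0.symm
        congr 1
        · congr 1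
          rw [← Finset.sum_filter_add_sum_filter_not univ (fun m => m ∈ (univ.erase i).erase p)]
          rw [Finset.sum_eq_zero (s := univ.filter (fun m => ¬ m ∈ (univ.erase i).erase p))
            (fun m hm => by rw [if_neg (Finset.mem_filter.1 hm).2, zero_mul]), add_zero]
          have h7 : univ.filter (fun m => m ∈ (univ.erase i).erase p)
              = (univ.erase i).erase p := by
            ext m; simp
          rw [h7]
          apply Finset.sum_congr rfl
          intro m hm
          rw [if_pos hm]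
          rfl
        · have h8 : ∀ v : Fin k, (if v ∈ Sᶜ then a v * ω v else 0) * X ^ (k + 2 + (v : ℕ))
              = if v ∈ Sᶜ then a v * ω v * X ^ (k + 2 + (v : ℕ)) else 0 := by
            intro v
            split_ifs <;> simp
          rw [Finset.sum_congr rfl (fun v _ => h8 v), Finset.sum_ite_mem, Finset.univ_inter])
    refine ⟨?_, ?_, ?_⟩
    · intro m hm
      by_cases hmp : m = p
      · rw [hmp]
      · have h9 := key (Sum.inl m)
        simp only [Sum.elim_inl] at h9
        rw [if_pos (by simp [hm, hmp])] at h9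
        linarith
    · exact key (Sum.inr (Sum.inl ()))
    · intro v hv
      have h9 := key (Sum.inr (Sum.inr v))
      simp only [Sum.elim_inr] at h9
      rw [if_pos (by simpa using hv)] at h9
      rcases mul_eq_zero.1 h9 with h | h
      · exact absurd h (ha v)
      · exact h
  · left
    rw [hZ]
    have hQ0 : 0 ≤ Q := by
      have h1 : 0 ≤ hh a := by
        unfold hh
        have : 0 ≤ LL a := Finset.prod_nonneg (fun _ _ => abs_nonneg _)
        positivity
      have h2 : 0 ≤ KK a := by
        unfold KK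
        positivity
      have h3 : 0 ≤ AA a * |ρ| := mul_nonneg hA0 (abs_nonneg _)
      linarith
    have h1 : Q ≤ |Q * Z0| := by
      rw [abs_mul, abs_of_nonneg hQ0]
      have : 1 ≤ |Z0| := Int.one_le_abs hz
      nlinarith
    have h2 : |ρ * φ p| ≤ AA a * |ρ| := by
      rw [abs_mul, mul_comm]
      exact mul_le_mul_of_nonneg_right (ff_le a S τ p) (abs_nonneg _)
    have h3 : |Q * Z0| ≤ |Q * Z0 + ρ * φ p| + |ρ * φ p| := by
      have := abs_sub (Q * Z0 + ρ * φ p) (ρ * φ p)
      simpa using this
    linarith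

/-- all `a m` divide `LL a` -/
theorem dvd_LL (a : Fin k → ℤ) (p : Fin k) : a p ∣ LL a := by
  have h : |a p| ∣ LL a := Finset.dvd_prod_of_mem (fun l => |a l|) (mem_univ p)
  exact (abs_dvd _ _).1 h

/-- the even fibres kill a proportional system -/
theorem even_zero (h5 : 5 ≤ k) (a : Fin k → ℤ) (ha : ∀ l, a l ≠ 0) (i p : Fin k)
    (S : Finset (Fin k)) (τ : Fin k → Fin k) (hτ : ∀ l ∈ S, τ l ≠ i) (hev : EvenOn S τ)
    (hprop : ∀ m, m ≠ i → a p * ff a S τ m = a m * ff a S τ p) :
    ∀ m, ff a S τ m = 0 := by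
  classical
  have hzero : ff a S τ p = 0 := by
    by_contra hne
    have h1 : ∀ m ∈ univ.erase i, 2 ≤ (S.filter (fun l => τ l = m)).card := by
      intro m hm
      have hmi : m ≠ i := Finset.ne_of_mem_erase hm
      have h2 : ff a S τ m ≠ 0 := by
        intro h0
        have := hprop m hmi
        rw [h0, mul_zero] at this
        rcases mul_eq_zero.1 this.symm with h | h
        · exact ha m h
        · exact hne h
      have h3 : (S.filter (fun l => τ l = m)).card ≠ 0 := by
        intro h0
        rw [Finset.card_eq_zero] at h0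
        exact h2 (by unfold ff; rw [h0, Finset.sum_empty])
      obtain ⟨t, ht⟩ := hev m
      omega
    have h4 : ∑ m ∈ univ.erase i, (S.filter (fun l => τ l = m)).card ≤ S.card := by
      have h5 : S.card = ∑ m, (S.filter (fun l => τ l = m)).card :=
        Finset.card_eq_sum_card_fiberwise (fun _ _ => by simp)
      rw [h5]
      exact Finset.sum_le_sum_of_subset (Finset.subset_univ _)
    have h6 : S.card ≤ k := by simpa using Finset.card_le_univ S
    have h7 : (univ.erase i).card • 2 ≤ ∑ m ∈ univ.erase i, (S.filter (fun l => τ l = m)).card :=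
      Finset.card_nsmul_le_sum _ _ _ h1
    rw [Finset.card_erase_of_mem (mem_univ i), Finset.card_univ, Fintype.card_fin,
      smul_eq_mul] at h7
    omega
  intro m
  by_cases hm : m = i
  · rw [hm]; unfold ff
    rw [Finset.filter_eq_empty_iff.2 (fun l hl => hτ l hl)]; simp
  · have := hprop m hm
    rw [hzero, mul_zero] at this
    rcases mul_eq_zero.1 this with h | h
    · exact absurd h (ha p)
    · exact h

end Pool.Agent.OddU.Gen51

namespace Pool.Agent.OddU

open Finset Gen51

theorem exists_good {k : ℕ} (h5 : 5 ≤ k) (a : Fin k → ℤ) (ha : ∀ l, a l ≠ 0) (i : Fin k)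
    (hp : ∃ m, m ≠ i ∧ 0 < a m) (hn : ∃ m, m ≠ i ∧ a m < 0) :
    ∃ (N : ℤ) (B W : Fin k → ℤ), Good a i N B W := by
  classical
  obtain ⟨p, hpi, hp0⟩ := hp
  obtain ⟨n, hni, hn0⟩ := hn
  have hnp : n ≠ p := by rintro rfl; omega
  have hA0 : 0 ≤ AA a := Finset.sum_nonneg (fun _ _ => abs_nonneg _)
  set X : ℤ := 2 * AA a ^ 2 + 2 * AA a + 3 with hXdef
  have hX : 2 * AA a ^ 2 + 2 * AA a + 2 < X := by omega
  have hX3 : 3 ≤ X := by nlinarith [sq_nonneg (AA a)]
  have hXA : AA a + 1 ≤ X := by nlinarith [sq_nonneg (AA a)]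
  have hL0 : 0 ≤ LL a := Finset.prod_nonneg (fun _ _ => abs_nonneg _)
  have hh0 : 0 ≤ hh a := by unfold hh; positivity
  -- the prescribed value
  set E0 : ℤ := - (a i).sign * ((AA a + 1) * LL a) - hh a * ∑ m ∈ univ.erase i, a m * JJ a i m
    with hE0
  have hdvd : a p ∣ E0 := by
    have h1 : a p ∣ LL a := dvd_LL a p
    have h2 : a p ∣ hh a := by unfold hh; exact Dvd.dvd.mul_left h1 _
    rw [hE0]
    exact dvd_sub (Dvd.dvd.mul_left (Dvd.dvd.mul_left h1 _) _) (Dvd.dvd.mul_right h2 _)
  obtain ⟨ρ, hρ⟩ := hdvd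
  have hr0 : 0 ≤ |ρ| := abs_nonneg _
  set Q : ℤ := KK a + AA a * |ρ| + |ρ| + k * hh a + 2 with hQdef
  have hk0 : (0 : ℤ) ≤ k := by positivity
  have hkh : (0 : ℤ) ≤ k * hh a := mul_nonneg hk0 hh0
  have hAr : 0 ≤ AA a * |ρ| := mul_nonneg hA0 hr0
  have hKK0 : 0 ≤ KK a := by unfold KK; positivity
  have hQ : KK a + AA a * |ρ| < Q := by omega
  have hQ1 : 0 < Q := by omega
  have hXk : 0 < X ^ k := by positivity
  -- bounds for cc
  have hbb0 : ∀ m, 0 < bb X n m := fun m => by unfold bb; positivity
  have hbbk : ∀ m, bb X n m ≤ X ^ k := by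
    intro m
    unfold bb
    split_ifs
    · exact le_refl _
    · exact pow_le_pow_right₀ (by omega) m.isLt.le
  have hbbk1 : ∀ m, m ≠ n → bb X n m ≤ X ^ (k - 1) := by
    intro m hm
    unfold bb
    rw [if_neg hm]
    exact pow_le_pow_right₀ (by omega) (by have := m.isLt; omega)
  have hXk1 : X ^ k = X ^ (k - 1) * X := by
    rw [← pow_succ]; congr 1; omega
  have hcc1 : ∀ m, m = p ∨ 0 < a p → 1 ≤ cc a X i p n m := by
    intro m _
    unfold cc
    split_ifs with hmp
    · have hn' : n ∈ (univ.erase i).erase p := by simp [hni, hnp]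
      rw [← Finset.add_sum_erase _ _ hn']
      have h1 : bb X n n = X ^ k := by unfold bb; rw [if_pos rfl]
      have h2 : |∑ j ∈ ((univ.erase i).erase p).erase n, a j * bb X n j|
          ≤ X ^ (k - 1) * AA a := by
        apply abs_sum_le_AA a _ _ _ (by positivity)
        intro l hl
        rw [abs_of_pos (hbb0 l)]
        exact hbbk1 l (Finset.ne_of_mem_erase hl)
      have h3 := (abs_le.1 h2).2
      rw [h1, hXk1]
      have h4 : 1 ≤ X ^ (k - 1) := by
        have h5 : 0 < X ^ (k - 1) := by positivity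
        linarith
      have h6 : X ^ (k - 1) * X ≤ - (a n) * (X ^ (k - 1) * X) := by
        have h7 : 0 < X ^ (k - 1) * X := by positivity
        nlinarith
      nlinarith
    · have := hbb0 m
      nlinarith
  have hcc1' : ∀ m, 1 ≤ cc a X i p n m := fun m => hcc1 m (Or.inr hp0)
  have hccA : ∀ m, cc a X i p n m ≤ X ^ k * AA a := by
    intro m
    unfold cc
    split_ifs with hmp
    · have h2 : |∑ j ∈ (univ.erase i).erase p, a j * bb X n j| ≤ X ^ k * AA a := by
        apply abs_sum_le_AA a _ _ _ (by positivity)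
        intro l _
        rw [abs_of_pos (hbb0 l)]
        exact hbbk l
      have := (abs_le.1 h2).1
      linarith
    · have h1 : a p ≤ AA a := (le_abs_self _).trans (abs_le_AA a p)
      have h2 := hbbk m
      have h3 := hbb0 m
      nlinarith
  refine ⟨X ^ (k + 1) * Q, fun m => cc a X i p n m * Q + (if m = p then ρ else 0),
    fun v => X ^ (k + 2 + (v : ℕ)) * Q, ?_⟩
  have hNpos : 0 < X ^ (k + 1) * Q := by positivity
  have hW2 : ∀ v : Fin k, 2 * (X ^ (k + 1) * Q) < X ^ (k + 2 + (v : ℕ)) * Q := by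
    intro v
    have h1 : X ^ (k + 2) ≤ X ^ (k + 2 + (v : ℕ)) := pow_le_pow_right₀ (by omega) (by omega)
    have h2 : X ^ (k + 2) = X ^ (k + 1) * X := by rw [← pow_succ]
    have h3 : X ^ (k + 2) * Q ≤ X ^ (k + 2 + (v : ℕ)) * Q := mul_le_mul_of_nonneg_right h1 hQ1.le
    have h4 : 3 * (X ^ (k + 1) * Q) ≤ X * (X ^ (k + 1) * Q) :=
      mul_le_mul_of_nonneg_right hX3 hNpos.le
    have h5 : X ^ (k + 2) * Q = X * (X ^ (k + 1) * Q) := by rw [h2]; ring
    linarith
  constructor
  · -- hB
    intro m
    have h1 := hcc1' m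
    have h2 := hccA m
    have hρ1 : |if m = p then ρ else 0| ≤ |ρ| := by
      split_ifs
      · exact le_refl _
      · simp
    have h3 := abs_le.1 hρ1
    constructor
    · show 0 ≤ cc a X i p n m * Q + (if m = p then ρ else 0)
      have h6 : 1 * Q ≤ cc a X i p n m * Q := mul_le_mul_of_nonneg_right h1 hQ1.le
      linarith [h3.1]
    · show cc a X i p n m * Q + (if m = p then ρ else 0) + 1 + k * hh a ≤ X ^ (k + 1) * Q
      have h4 : X ^ (k + 1) = X ^ k * X := pow_succ _ _
      have h5 : cc a X i p n m + 1 ≤ X ^ k * X := by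
        have h7 : X ^ k * (AA a + 1) ≤ X ^ k * X := mul_le_mul_of_nonneg_left hXA hXk.le
        linarith
      rw [h4]
      have h6 : (cc a X i p n m + 1) * Q ≤ (X ^ k * X) * Q :=
        mul_le_mul_of_nonneg_right h5 hQ1.le
      linarith [h3.2]
  · exact hW2
  · -- far
    intro S τ e hτ hev he hex
    have hdec : ∀ v, ∃ y : ℤ × ℤ, v ∉ S → (|y.1| ≤ 2 ∧ |y.2| ≤ 1 ∧
        e v = (y.1 * X ^ (k + 1) + y.2 * X ^ (k + 2 + (v : ℕ))) * Q ∧
        (y.2 = 0 → e v = 0 ∨ e v = X ^ (k + 1) * Q)) := by
      intro v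
      by_cases hv : v ∈ S
      · exact ⟨(0, 0), fun h => absurd hv h⟩
      · rcases he v hv with h | h | h | h | h
        · exact ⟨(0, 0), fun _ => ⟨by norm_num, by norm_num, by rw [h]; ring, fun _ => Or.inl h⟩⟩
        · exact ⟨(1, 0), fun _ => ⟨by norm_num, by norm_num, by rw [h]; ring, fun _ => Or.inr h⟩⟩
        · exact ⟨(0, 1), fun _ => ⟨by norm_num, by norm_num, by rw [h]; ring,
            fun h' => absurd h' (by norm_num)⟩⟩
        · exact ⟨(0, -1), fun _ => ⟨by norm_num, by norm_num, by rw [h]; ring,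
            fun h' => absurd h' (by norm_num)⟩⟩
        · exact ⟨(2, -1), fun _ => ⟨by norm_num, by norm_num, by rw [h]; ring,
            fun h' => absurd h' (by norm_num)⟩⟩
    choose y hy using hdec
    rcases alt a i p n hpi X Q ρ hX hQ S τ hτ e (fun v => (y v).1) (fun v => (y v).2)
      (fun v hv => (hy v hv).1) (fun v hv => (hy v hv).2.1) (fun v hv => (hy v hv).2.2.1) ha
      with h | h
    · exact h
    · exfalso
      obtain ⟨v, hv, h1, h2⟩ := hex
      rcases (hy v hv).2.2.2 (h.2.2 v hv) with h3 | h3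
      · exact h1 h3
      · exact h2 h3
  · -- cen
    intro S τ e hτ hev he
    have hdec : ∀ v, ∃ y : ℤ, v ∉ S → (|y| ≤ 2 ∧ e v = (y * X ^ (k + 1)) * Q) := by
      intro v
      by_cases hv : v ∈ S
      · exact ⟨0, fun h => absurd hv h⟩
      · rcases he v hv with h | h
        · exact ⟨0, fun _ => ⟨by norm_num, by rw [h]; ring⟩⟩
        · exact ⟨1, fun _ => ⟨by norm_num, by rw [h]; ring⟩⟩
    choose y hy using hdec
    rcases alt a i p n hpi X Q ρ hX hQ S τ hτ e y (fun _ => 0)
      (fun v hv => (hy v hv).1) (fun v hv => by norm_num)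
      (fun v hv => by rw [(hy v hv).2]; ring) ha with h | h
    · exact Or.inl h
    · right
      refine ⟨fun m => even_zero h5 a ha i p S τ hτ hev h.1 m, ?_⟩
      have h1 : ∑ v ∈ Sᶜ, a v * e v = (∑ v ∈ Sᶜ, a v * y v) * (X ^ (k + 1) * Q) := by
        rw [Finset.sum_mul]
        apply Finset.sum_congr rfl
        intro v hv
        rw [(hy v (by simpa using hv)).2]
        ring
      rw [h1, h.2.1, zero_mul]
  · -- bij
    intro i' τ e hb he
    have hτ : ∀ l ∈ univ.erase i', τ l ≠ i := by
      intro l hl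
      exact hb.mapsTo (show l ∈ {l | l ≠ i'} from Finset.ne_of_mem_erase hl)
    have hcompl : (univ.erase i')ᶜ = {i'} := by
      ext v; simp
    obtain ⟨y, hy1, hy2, hy3⟩ : ∃ y : ℤ, |y| ≤ 2 ∧ e = (y * X ^ (k + 1)) * Q ∧
        (y = 0 → e = 0) := by
      rcases he with h | h
      · exact ⟨0, by norm_num, by rw [h]; ring, fun _ => h⟩
      · exact ⟨1, by norm_num, by rw [h]; ring, fun h' => absurd h' (by norm_num)⟩
    rcases alt a i p n hpi X Q ρ hX hQ (univ.erase i') τ hτ (fun _ => e) (fun _ => y) (fun _ => 0)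
      (fun _ _ => hy1) (fun _ _ => by norm_num) (fun v hv => by rw [hy2]; ring) ha with h | h
    · left
      have h1 : ZZ a (fun m => cc a X i p n m * Q + (if m = p then ρ else 0)) (univ.erase i') τ
          (fun _ => e) = ∑ l ∈ univ.erase i',
            a l * (cc a X i p n (τ l) * Q + (if τ l = p then ρ else 0)) + a i' * e := by
        unfold ZZ
        rw [hcompl, Finset.sum_singleton]
      rw [h1] at h
      exact h
    · right
      obtain ⟨h1, h2, -⟩ := h
      rw [hcompl, Finset.sum_singleton] at h2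
      have hy0 : y = 0 := by
        rcases mul_eq_zero.1 h2 with h | h
        · exact absurd h (ha i')
        · exact h
      refine ⟨hy3 hy0, (ff a (univ.erase i') τ p : ℚ) / (a p : ℚ), ?_⟩
      intro l hl
      have hm : τ l ≠ i := hb.mapsTo (show l ∈ {l | l ≠ i'} from hl)
      have h3 : ff a (univ.erase i') τ (τ l) = a l := by
        unfold ff
        have h4 : (univ.erase i').filter (fun l' => τ l' = τ l) = {l} := by
          ext l'
          simp only [Finset.mem_filter, Finset.mem_erase, Finset.mem_univ, and_true,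
            Finset.mem_singleton]
          constructor
          · rintro ⟨h5, h6⟩
            exact hb.injOn (show l' ∈ {l | l ≠ i'} from h5) (show l ∈ {l | l ≠ i'} from hl) h6
          · rintro rfl
            exact ⟨hl, rfl⟩
        rw [h4, Finset.sum_singleton]
      have h5 := h1 (τ l) hm
      rw [h3] at h5
      have h6 : (a p : ℚ) ≠ 0 := by exact_mod_cast ha p
      have h7 : (a p : ℚ) * (a l : ℚ) = (a (τ l) : ℚ) * (ff a (univ.erase i') τ p : ℚ) := by
        exact_mod_cast h5
      field_simp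
      linarith
  · -- ext
    have h1 : ∑ m ∈ univ.erase i, a m * cc a X i p n m = 0 := by
      rw [← Finset.add_sum_erase _ _ (show p ∈ univ.erase i from mem_erase.2 ⟨hpi, mem_univ _⟩)]
      have h2 : cc a X i p n p = - ∑ j ∈ (univ.erase i).erase p, a j * bb X n j := by
        unfold cc; rw [if_pos rfl]
      have h3 : ∑ m ∈ (univ.erase i).erase p, a m * cc a X i p n m
          = a p * ∑ m ∈ (univ.erase i).erase p, a m * bb X n m := by
        rw [Finset.mul_sum]
        apply Finset.sum_congr rfl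
        intro m hm
        have : m ≠ p := Finset.ne_of_mem_erase hm
        unfold cc; rw [if_neg this]
        ring
      rw [h2, h3]
      ring
    have h2 : ∑ m ∈ univ.erase i, a m * (cc a X i p n m * Q + (if m = p then ρ else 0))
        = Q * ∑ m ∈ univ.erase i, a m * cc a X i p n m + a p * ρ := by
      have h3 : ∀ m, a m * (cc a X i p n m * Q + (if m = p then ρ else 0))
          = Q * (a m * cc a X i p n m) + (if m = p then a m * ρ else 0) := by
        intro m
        split_ifs <;> ring
      rw [Finset.sum_congr rfl (fun m _ => h3 m), Finset.sum_add_distrib, ← Finset.mul_sum,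
        Finset.sum_ite_eq' (univ.erase i) p (fun m => a m * ρ),
        if_pos (show p ∈ univ.erase i from mem_erase.2 ⟨hpi, mem_univ _⟩)]
    rw [h2, h1, mul_zero, zero_add, ← hρ]

end Pool.Agent.OddU
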