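import Pool.Agent.OddU.Defs

/-! # MP_3b56a7, odd equations, row LINK: solutions in `[n]` and the bracket -/

set_option autoImplicit false

namespace Pool.Agent.OddU

open Finset

namespace R13

theorem ind_coeff (α β x : ℤ) : (ind α β).coeff x = if x ∈ Finset.Ioc α β then 1 else 0 := by
  unfold ind mono
  rw [AddMonoidAlgebra.coeff_sum, Finsupp.finsetSum_apply]
  by_cases h : x ∈ Finset.Ioc α β
  · rw [if_pos h, Finset.sum_eq_single x]
    · rw [AddMonoidAlgebra.coeff_single, Finsupp.single_eq_same]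
    · intro y _ hy
      rw [AddMonoidAlgebra.coeff_single, Finsupp.single_apply, if_neg hy]
    · exact fun h' => absurd h h'
  · rw [if_neg h]
    refine Finset.sum_eq_zero fun y hy => ?_
    rw [AddMonoidAlgebra.coeff_single, Finsupp.single_apply, if_neg]
    rintro rfl
    exact h hy

theorem prod_single {ι : Type*} (s : Finset ι) (e : ι → ℤ) (r : ι → ℝ) :
    ∏ l ∈ s, (AddMonoidAlgebra.single (e l) (r l) : LP) =
      AddMonoidAlgebra.single (∑ l ∈ s, e l) (∏ l ∈ s, r l) := by
  classical
  induction s using Finset.induction_on with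
  | empty => rw [Finset.prod_empty, Finset.prod_empty, Finset.sum_empty]; rfl
  | insert b s hb ih =>
    rw [Finset.prod_insert hb, Finset.prod_insert hb, Finset.sum_insert hb, ih,
      AddMonoidAlgebra.single_mul_single]

theorem phi_eq (c : ℤ) (F : LP) (s : Finset ℤ) (hs : F.coeff.support ⊆ s) :
    phi c F = ∑ x ∈ s, AddMonoidAlgebra.single (c * x) (F.coeff x) := by
  have h : F = ∑ x ∈ s, AddMonoidAlgebra.single x (F.coeff x) := by
    have h1 := AddMonoidAlgebra.sum_coeff_single F
    conv_lhs => rw [← h1]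
    exact Finsupp.sum_of_support_subset _ hs _ (fun x _ => AddMonoidAlgebra.single_zero x)
  conv_lhs => rw [h]
  rw [map_sum]
  refine Finset.sum_congr rfl fun x _ => ?_
  exact AddMonoidAlgebra.mapDomain_single

/-- the bracket as a sum over solutions -/
theorem br_eq {k : ℕ} (a : Fin k → ℤ) (F : Fin k → LP) (s : Fin k → Finset ℤ)
    (hs : ∀ l, (F l).coeff.support ⊆ s l) :
    br a F = ∑ x ∈ Fintype.piFinset s, if ∑ l, a l * x l = 0 then ∏ l, (F l).coeff (x l) else 0 := by
  unfold br
  have h : ∏ l, phi (a l) (F l) = ∑ x ∈ Fintype.piFinset s,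
      (AddMonoidAlgebra.single (∑ l, a l * x l) (∏ l, (F l).coeff (x l)) : LP) := by
    rw [Finset.prod_congr rfl fun l _ => phi_eq (a l) (F l) (s l) (hs l), Finset.prod_univ_sum]
    exact Finset.sum_congr rfl fun x _ => prod_single _ _ _
  rw [h, AddMonoidAlgebra.coeff_sum, Finsupp.finsetSum_apply]
  refine Finset.sum_congr rfl fun x _ => ?_
  rw [AddMonoidAlgebra.coeff_single, Finsupp.single_apply]

theorem link_of {k n : ℕ} (a : Fin k → ℤ) (g : LP) (hg : ∀ x, g.coeff x ≠ 0 → 1 ≤ x ∧ x ≤ n)
    (S : Finset (Fin k)) [DecidablePred (fun x : Fin k → Fin n => IsSol a x)]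
    (hbr : ∀ (F : Fin k → LP) (s : Fin k → Finset ℤ), (∀ l, (F l).coeff.support ⊆ s l) →
      br a F = ∑ x ∈ Fintype.piFinset s, if ∑ l, a l * x l = 0 then ∏ l, (F l).coeff (x l) else 0) :
    ∑ x ∈ univ.filter (fun x : Fin k → Fin n => IsSol a x),
      ∏ l ∈ S, g.coeff (((x l : ℕ) : ℤ) + 1) = br a (fun l => if l ∈ S then g else ind 0 n) := by
  classical
  rw [hbr _ (fun _ => Finset.Ioc 0 (n : ℤ))]
  · rw [Finset.sum_filter]
    refine Finset.sum_bij' (fun x _ l => ((x l : ℕ) : ℤ) + 1)
      (fun y hy l => ⟨(y l - 1).toNat, by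
        have h := Finset.mem_Ioc.1 (Fintype.mem_piFinset.1 hy l)
        omega⟩) ?_ ?_ ?_ ?_ ?_
    · intro x _
      rw [Fintype.mem_piFinset]
      intro l
      rw [Finset.mem_Ioc]
      have := (x l).2
      omega
    · intro y hy
      exact Finset.mem_univ _
    · intro x _
      funext l
      ext
      show ((((x l : ℕ) : ℤ) + 1) - 1).toNat = x l
      omega
    · intro y hy
      funext l
      have h := Finset.mem_Ioc.1 (Fintype.mem_piFinset.1 hy l)
      show (((y l - 1).toNat : ℕ) : ℤ) + 1 = y l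
      omega
    · intro x _
      have h1 : IsSol a x ↔ ∑ l, a l * (((x l : ℕ) : ℤ) + 1) = 0 := Iff.rfl
      by_cases h : IsSol a x
      · rw [if_pos h, if_pos (h1.1 h), ← Finset.prod_subset (Finset.subset_univ S)]
        · refine Finset.prod_congr rfl fun l hl => ?_
          rw [if_pos hl]
        · intro l _ hl
          rw [if_neg hl]
          show (ind 0 n).coeff (((x l : ℕ) : ℤ) + 1) = 1
          rw [ind_coeff, if_pos]
          rw [Finset.mem_Ioc]
          have := (x l).2
          omega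
      · rw [if_neg h, if_neg (fun h' => h (h1.2 h'))]
  · intro l x hx
    rw [Finsupp.mem_support_iff] at hx
    rw [Finset.mem_Ioc]
    by_cases hl : l ∈ S
    · rw [if_pos hl] at hx
      have := hg x hx
      omega
    · rw [if_neg hl, ind_coeff] at hx
      by_contra h
      rw [if_neg (by rw [Finset.mem_Ioc]; exact h)] at hx
      exact hx rfl

end R13

/-- ROW LINK -/
theorem link {k n : ℕ} (a : Fin k → ℤ) (g : LP) (hg : ∀ x, g.coeff x ≠ 0 → 1 ≤ x ∧ x ≤ n)
    (S : Finset (Fin k)) [DecidablePred (fun x : Fin k → Fin n => IsSol a x)] :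
    ∑ x ∈ univ.filter (fun x : Fin k → Fin n => IsSol a x),
      ∏ l ∈ S, g.coeff (((x l : ℕ) : ℤ) + 1) = br a (fun l => if l ∈ S then g else ind 0 n) :=
  R13.link_of a g hg S (R13.br_eq a)

end Pool.Agent.OddU
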