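import Pool.Agent.OddU.Defs

set_option autoImplicit false

namespace Pool.Agent.OddU

open Finset

namespace Round15

open scoped Classical in
theorem monoCount_eq {k n r : ℕ} (a : Fin k → ℤ) (c : Fin n → Fin r) :
    (monoCount a c : ℝ) = ∑ x ∈ univ.filter (fun x : Fin k → Fin n => IsSol a x),
      (if ∀ i j, c (x i) = c (x j) then (1 : ℝ) else 0) := by
  unfold monoCount
  rw [Nat.card_eq_fintype_card, Fintype.card_subtype, Finset.sum_boole, Finset.filter_filter]

open scoped Classical in
theorem sum_prod {n : ℕ} (f : Fin n → Fin 2 → ℝ) :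
    ∑ c : Fin n → Fin 2, ∏ v, f v (c v) = ∏ v, ∑ e, f v e := by
  rw [Finset.prod_univ_sum, Fintype.piFinset_univ]

open scoped Classical in
/-- the weighted number of colourings which are `e` on the points `x l` -/
theorem sum_all {k n : ℕ} (p : Fin n → Fin 2 → ℝ) (x : Fin k → Fin n) (e : Fin 2) :
    ∑ c : Fin n → Fin 2, (∏ v, p v (c v)) * (if ∀ l, c (x l) = e then (1 : ℝ) else 0)
      = ∏ v, (if v ∈ Set.range x then p v e else ∑ e', p v e') := by
  have h1 : ∀ c : Fin n → Fin 2, (∏ v, p v (c v)) * (if ∀ l, c (x l) = e then (1 : ℝ) else 0)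
      = ∏ v, (fun v e' => p v e' * (if v ∈ Set.range x then (if e' = e then (1 : ℝ) else 0)
          else 1)) v (c v) := by
    intro c
    simp only [Finset.prod_mul_distrib]
    congr 1
    split_ifs with h
    · symm
      apply Finset.prod_eq_one
      intro v _
      by_cases hv : v ∈ Set.range x
      · obtain ⟨l, rfl⟩ := hv
        rw [if_pos ⟨l, rfl⟩, if_pos (h l)]
      · rw [if_neg hv]
    · push Not at h
      obtain ⟨l, hl⟩ := h
      symm
      apply Finset.prod_eq_zero (Finset.mem_univ (x l))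
      rw [if_pos ⟨l, rfl⟩, if_neg hl]
  rw [Finset.sum_congr rfl (fun c _ => h1 c)]
  refine (sum_prod (fun v e' => p v e' * (if v ∈ Set.range x then
    (if e' = e then (1 : ℝ) else 0) else 1))).trans ?_
  apply Finset.prod_congr rfl
  intro v _
  by_cases hv : v ∈ Set.range x
  · simp only [if_pos hv]
    rw [Finset.sum_eq_single e]
    · simp
    · intro b _ hb
      simp [hb]
    · intro h
      exact absurd (Finset.mem_univ _) h
  · simp only [if_neg hv, mul_one]

open scoped Classical in
theorem sum_all_inj {k n : ℕ} (p : Fin n → Fin 2 → ℝ) (hp : ∀ v, ∑ e', p v e' = 1)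
    (x : Fin k → Fin n) (hx : Function.Injective x) (e : Fin 2) :
    ∑ c : Fin n → Fin 2, (∏ v, p v (c v)) * (if ∀ l, c (x l) = e then (1 : ℝ) else 0)
      = ∏ l, p (x l) e := by
  rw [sum_all]
  have h1 : ∏ l, p (x l) e = ∏ v ∈ univ.image x, p v e := by
    rw [Finset.prod_image (fun i _ j _ h => hx h)]
  rw [h1, ← Finset.prod_subset (Finset.subset_univ (univ.image x))
    (f := fun v => if v ∈ Set.range x then p v e else ∑ e', p v e')]
  · apply Finset.prod_congr rfl
    intro v hv
    rw [Finset.mem_image] at hv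
    obtain ⟨l, _, rfl⟩ := hv
    rw [if_pos ⟨l, rfl⟩]
  · intro v _ hv
    rw [if_neg, hp]
    rintro ⟨l, rfl⟩
    exact hv (Finset.mem_image_of_mem _ (Finset.mem_univ _))

open scoped Classical in
theorem ind_le {k n : ℕ} (hk : 0 < k) (c : Fin n → Fin 2) (x : Fin k → Fin n) :
    (if ∀ i j, c (x i) = c (x j) then (1 : ℝ) else 0)
      = (if ∀ l, c (x l) = 0 then (1 : ℝ) else 0) + (if ∀ l, c (x l) = 1 then (1 : ℝ) else 0) := by
  have l0 : Fin k := ⟨0, hk⟩
  by_cases h : ∀ i j, c (x i) = c (x j)
  · rw [if_pos h]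
    have h2 : c (x l0) = 0 ∨ c (x l0) = 1 := by
      generalize c (x l0) = y
      revert y
      decide
    rcases h2 with h2 | h2
    · rw [if_pos (fun l => (h l l0).trans h2), if_neg]
      · simp
      · intro h3
        have := h3 l0
        rw [h2] at this
        exact absurd this (by decide)
    · rw [if_neg, if_pos (fun l => (h l l0).trans h2)]
      · simp
      · intro h3
        have := h3 l0
        rw [h2] at this
        exact absurd this (by decide)
  · rw [if_neg h, if_neg (fun h3 => h (fun i j => (h3 i).trans (h3 j).symm)),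
      if_neg (fun h3 => h (fun i j => (h3 i).trans (h3 j).symm))]
    simp

open scoped Classical in
theorem card_pair {k n : ℕ} (hk : 3 ≤ k) (a : Fin k → ℤ) (ha : ∀ l, a l ≠ 0) (i j : Fin k)
    (hij : i ≠ j) :
    (univ.filter (fun x : Fin k → Fin n => IsSol a x ∧ x i = x j)).card ≤ n ^ (k - 2) := by
  have hm : ∃ m : Fin k, m ≠ i ∧ m ≠ j := by
    by_contra h
    push Not at h
    have h2 : (univ : Finset (Fin k)) ⊆ {i, j} := by
      intro m _
      by_cases h3 : m = i
      · simp [h3]
      · simp [h m h3]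
    have h3 := Finset.card_le_card h2
    rw [Finset.card_univ, Fintype.card_fin, Finset.card_pair hij] at h3
    omega
  obtain ⟨m, hmi, hmj⟩ := hm
  have hcard : Fintype.card {l : Fin k // l ≠ j ∧ l ≠ m} = k - 2 := by
    rw [Fintype.card_subtype]
    have h4 : (univ.filter (fun l : Fin k => l ≠ j ∧ l ≠ m)) = (univ.erase j).erase m := by
      ext l
      simp [and_comm]
    rw [h4, Finset.card_erase_of_mem (by simp [hmj]), Finset.card_erase_of_mem (by simp),
      Finset.card_univ, Fintype.card_fin]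
    omega
  have h5 : n ^ (k - 2) = (univ : Finset ({l : Fin k // l ≠ j ∧ l ≠ m} → Fin n)).card := by
    rw [Finset.card_univ, Fintype.card_fun, hcard, Fintype.card_fin]
  rw [h5]
  apply Finset.card_le_card_of_injOn (fun x l => x l.1) (fun x _ => Finset.mem_univ _)
  intro x hx y hy hxy
  simp only [Finset.coe_filter, Finset.mem_univ, true_and, Set.mem_ofPred_eq] at hx hy
  have h6 : ∀ l, l ≠ j → l ≠ m → x l = y l := fun l h1 h2 => congrFun hxy ⟨l, h1, h2⟩
  have h7 : x j = y j := by
    rw [← hx.2, ← hy.2]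
    exact h6 i hij hmi.symm
  have h8 : ∀ l, l ≠ m → x l = y l := by
    intro l hl
    by_cases h9 : l = j
    · rw [h9, h7]
    · exact h6 l h9 hl
  have h10 : x m = y m := by
    have e1 := hx.1
    have e2 := hy.1
    unfold IsSol at e1 e2
    rw [← Finset.add_sum_erase _ _ (Finset.mem_univ m)] at e1 e2
    have e3 : ∑ l ∈ univ.erase m, a l * (((x l : ℕ) : ℤ) + 1)
        = ∑ l ∈ univ.erase m, a l * (((y l : ℕ) : ℤ) + 1) := by
      apply Finset.sum_congr rfl
      intro l hl
      rw [h8 l (Finset.ne_of_mem_erase hl)]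
    rw [e3] at e1
    have e4 : a m * (((x m : ℕ) : ℤ) + 1) = a m * (((y m : ℕ) : ℤ) + 1) := by linarith
    have e5 := mul_left_cancel₀ (ha m) e4
    apply Fin.ext
    omega
  funext l
  by_cases h9 : l = m
  · rw [h9, h10]
  · exact h8 l h9

theorem card_noninj {k n : ℕ} (hk : 3 ≤ k) (a : Fin k → ℤ) (ha : ∀ l, a l ≠ 0)
    [DecidablePred (fun x : Fin k → Fin n => IsSol a x ∧ ¬ Function.Injective x)] :
    (univ.filter (fun x : Fin k → Fin n => IsSol a x ∧ ¬ Function.Injective x)).card
      ≤ k ^ 2 * n ^ (k - 2) := by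
  classical
  have h1 : (univ.filter (fun x : Fin k → Fin n => IsSol a x ∧ ¬ Function.Injective x)) ⊆
      (univ.filter (fun q : Fin k × Fin k => q.1 ≠ q.2)).biUnion
        (fun q => univ.filter (fun x : Fin k → Fin n => IsSol a x ∧ x q.1 = x q.2)) := by
    intro x hx
    rw [Finset.mem_filter] at hx
    obtain ⟨_, hs, hx⟩ := hx
    unfold Function.Injective at hx
    push Not at hx
    obtain ⟨i, j, h2, h3⟩ := hx
    rw [Finset.mem_biUnion]
    exact ⟨(i, j), by simp [h3], by simp [hs, h2]⟩
  refine (Finset.card_le_card h1).trans ?_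
  refine (Finset.card_biUnion_le_card_mul _ _ (n ^ (k - 2)) ?_).trans ?_
  · intro q hq
    rw [Finset.mem_filter] at hq
    exact card_pair hk a ha q.1 q.2 hq.2
  · apply Nat.mul_le_mul_right
    refine (Finset.card_filter_le _ _).trans ?_
    rw [Finset.card_univ, Fintype.card_prod, Fintype.card_fin, pow_two]

end Round15

open Round15 in
/-- ROW ROUND (Round.lean): random rounding -/
theorem rounding {k n : ℕ} (hk : 3 ≤ k) (a : Fin k → ℤ) (ha : ∀ l, a l ≠ 0) (g : Fin n → ℝ)
    (hg : ∀ v, |g v| ≤ 1) [DecidablePred (fun x : Fin k → Fin n => IsSol a x)] :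
    ∃ c : Fin n → Fin 2, (monoCount a c : ℝ) ≤
      (∑ x ∈ univ.filter (fun x : Fin k → Fin n => IsSol a x),
        (∏ l, (1 + g (x l)) / 2 + ∏ l, (1 - g (x l)) / 2)) + (k : ℝ) ^ 2 * (n : ℝ) ^ (k - 2) := by
  classical
  set p : Fin n → Fin 2 → ℝ := fun v e => if e = 0 then (1 + g v) / 2 else (1 - g v) / 2 with hp
  have hp1 : ∀ v, ∑ e', p v e' = 1 := by
    intro v
    rw [Fin.sum_univ_two]
    simp only [hp]
    norm_num
    ring
  have hp0 : ∀ v e, 0 ≤ p v e := by
    intro v e
    have := abs_le.mp (hg v)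
    simp only [hp]
    split_ifs <;> linarith
  set w : (Fin n → Fin 2) → ℝ := fun c => ∏ v, p v (c v) with hw
  have hw0 : ∀ c, 0 ≤ w c := fun c => Finset.prod_nonneg (fun v _ => hp0 v _)
  have hw1 : ∑ c, w c = 1 := by
    simp only [hw]
    rw [sum_prod]
    exact Finset.prod_eq_one (fun v _ => hp1 v)
  set S := univ.filter (fun x : Fin k → Fin n => IsSol a x) with hS
  set B : ℝ := (∑ x ∈ S, (∏ l, (1 + g (x l)) / 2 + ∏ l, (1 - g (x l)) / 2))
    + (k : ℝ) ^ 2 * (n : ℝ) ^ (k - 2) with hB
  have hE : ∑ c, w c * (monoCount a c : ℝ) ≤ B := by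
    have h1 : ∑ c, w c * (monoCount a c : ℝ) = ∑ x ∈ S, ∑ c, w c *
        (if ∀ i j, c (x i) = c (x j) then (1 : ℝ) else 0) := by
      rw [Finset.sum_comm]
      apply Finset.sum_congr rfl
      intro c _
      rw [monoCount_eq, Finset.mul_sum]
      apply Finset.sum_congr _ (fun x _ => rfl)
      rw [hS]
      ext x
      simp
    rw [h1]
    have h2 : ∀ x ∈ S, ∑ c, w c * (if ∀ i j, c (x i) = c (x j) then (1 : ℝ) else 0) ≤
        (∏ l, (1 + g (x l)) / 2 + ∏ l, (1 - g (x l)) / 2) +
          (if ¬ Function.Injective x then (1 : ℝ) else 0) := by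
      intro x _
      by_cases hx : Function.Injective x
      · rw [if_neg (not_not.mpr hx), add_zero]
        have h3 : ∀ c, w c * (if ∀ i j, c (x i) = c (x j) then (1 : ℝ) else 0) =
            w c * (if ∀ l, c (x l) = 0 then (1 : ℝ) else 0) +
            w c * (if ∀ l, c (x l) = 1 then (1 : ℝ) else 0) := by
          intro c
          rw [ind_le (by omega) c x, mul_add]
        rw [Finset.sum_congr rfl (fun c _ => h3 c), Finset.sum_add_distrib,
          sum_all_inj p hp1 x hx 0, sum_all_inj p hp1 x hx 1]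
        simp [hp]
      · rw [if_pos hx]
        have h3 : ∑ c, w c * (if ∀ i j, c (x i) = c (x j) then (1 : ℝ) else 0) ≤ 1 := by
          refine le_trans ?_ hw1.le
          apply Finset.sum_le_sum
          intro c _
          split_ifs
          · rw [mul_one]
          · rw [mul_zero]
            exact hw0 c
        have h4 : 0 ≤ ∏ l, (1 + g (x l)) / 2 := by
          apply Finset.prod_nonneg
          intro l _
          have := abs_le.mp (hg (x l))
          linarith
        have h5 : 0 ≤ ∏ l, (1 - g (x l)) / 2 := by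
          apply Finset.prod_nonneg
          intro l _
          have := abs_le.mp (hg (x l))
          linarith
        linarith
    refine (Finset.sum_le_sum h2).trans ?_
    rw [Finset.sum_add_distrib, hB]
    have h6 : ∑ x ∈ S, (if ¬ Function.Injective x then (1 : ℝ) else 0)
        ≤ (k : ℝ) ^ 2 * (n : ℝ) ^ (k - 2) := by
      rw [Finset.sum_boole, hS, Finset.filter_filter]
      exact_mod_cast card_noninj (n := n) hk a ha
    linarith
  by_contra hcon
  push Not at hcon
  have h7 : ∑ c, w c * B < ∑ c, w c * (monoCount a c : ℝ) := by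
    have hne : ∃ c, 0 < w c := by
      by_contra h
      push Not at h
      have : ∑ c, w c ≤ 0 := Finset.sum_nonpos (fun c _ => h c)
      linarith
    obtain ⟨c0, hc0⟩ := hne
    apply Finset.sum_lt_sum
    · intro c _
      exact mul_le_mul_of_nonneg_left (hcon c).le (hw0 c)
    · exact ⟨c0, Finset.mem_univ _, mul_lt_mul_of_pos_left (hcon c0) hc0⟩
  rw [← Finset.sum_mul, hw1, one_mul] at h7
  linarith

open Round15 in
theorem expected_ge {k n : ℕ} (hk : 2 ≤ k) (a : Fin k → ℤ)
    [DecidablePred (fun x : Fin k → Fin n => IsSol a x)] :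
    2 * ((univ.filter (fun x : Fin k → Fin n => IsSol a x)).card : ℝ) / 2 ^ k
      ≤ expectedMono a n 2 := by
  classical
  unfold expectedMono
  have h0 : ∑ c : Fin n → Fin 2, (monoCount a c : ℝ) =
      ∑ x ∈ univ.filter (fun x : Fin k → Fin n => IsSol a x), ∑ c : Fin n → Fin 2,
        (if ∀ i j, c (x i) = c (x j) then (1 : ℝ) else 0) := by
    rw [Finset.sum_comm]
    apply Finset.sum_congr rfl
    intro c _
    rw [monoCount_eq]
    apply Finset.sum_congr _ (fun x _ => rfl)
    ext x
    simp
  have h1 : ∀ x : Fin k → Fin n, 2 * (2 : ℝ) ^ n / 2 ^ k ≤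
      ∑ c : Fin n → Fin 2, (if ∀ i j, c (x i) = c (x j) then (1 : ℝ) else 0) := by
    intro x
    have h2 : ∀ e : Fin 2, (2 : ℝ) ^ n / 2 ^ k ≤
        ∑ c : Fin n → Fin 2, (if ∀ l, c (x l) = e then (1 : ℝ) else 0) := by
      intro e
      have h3 := sum_all (fun _ _ => (1 : ℝ)) x e
      simp only [Finset.prod_const_one, one_mul, Finset.sum_const, Finset.card_univ,
        Fintype.card_fin, nsmul_eq_mul, mul_one] at h3
      rw [h3]
      have h4 : (∏ v : Fin n, (if v ∈ Set.range x then (1 : ℝ) else ((2 : ℕ) : ℝ))) *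
          ∏ v : Fin n, (if v ∈ Set.range x then (2 : ℝ) else 1) = 2 ^ n := by
        rw [← Finset.prod_mul_distrib]
        have : ∀ v ∈ (univ : Finset (Fin n)), (if v ∈ Set.range x then (1 : ℝ) else ((2 : ℕ) : ℝ)) *
            (if v ∈ Set.range x then (2 : ℝ) else 1) = 2 := by
          intro v _
          split_ifs <;> norm_num
        rw [Finset.prod_congr rfl this, Finset.prod_const, Finset.card_univ, Fintype.card_fin]
      have h5 : ∏ v : Fin n, (if v ∈ Set.range x then (2 : ℝ) else 1) ≤ 2 ^ k := by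
        rw [Finset.prod_ite, Finset.prod_const, Finset.prod_const_one, mul_one]
        apply pow_le_pow_right₀ (by norm_num)
        have h6 : (univ.filter (fun v : Fin n => v ∈ Set.range x)) ⊆ univ.image x := by
          intro v hv
          rw [Finset.mem_filter] at hv
          obtain ⟨l, hl⟩ := hv.2
          rw [← hl]
          exact Finset.mem_image_of_mem _ (Finset.mem_univ _)
        refine (Finset.card_le_card h6).trans (Finset.card_image_le.trans ?_)
        rw [Finset.card_univ, Fintype.card_fin]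
      have h7 : 0 ≤ ∏ v : Fin n, (if v ∈ Set.range x then (1 : ℝ) else ((2 : ℕ) : ℝ)) :=
        Finset.prod_nonneg (fun v _ => by split_ifs <;> norm_num)
      rw [div_le_iff₀ (by positivity), ← h4]
      exact mul_le_mul_of_nonneg_left h5 h7
    have h8 : ∑ c : Fin n → Fin 2, (if ∀ i j, c (x i) = c (x j) then (1 : ℝ) else 0) =
        ∑ c : Fin n → Fin 2, (if ∀ l, c (x l) = 0 then (1 : ℝ) else 0) +
        ∑ c : Fin n → Fin 2, (if ∀ l, c (x l) = 1 then (1 : ℝ) else 0) := by
      rw [← Finset.sum_add_distrib]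
      exact Finset.sum_congr rfl (fun c _ => ind_le (by omega) c x)
    rw [h8]
    have := h2 0
    have := h2 1
    have h9 : 2 * (2 : ℝ) ^ n / 2 ^ k = 2 ^ n / 2 ^ k + 2 ^ n / 2 ^ k := by ring
    linarith
  have hcast : ((2 : ℕ) : ℝ) = 2 := by norm_num
  rw [hcast, le_div_iff₀ (by positivity), h0]
  refine le_trans (le_of_eq ?_) (Finset.sum_le_sum (fun x _ => h1 x))
  rw [Finset.sum_const, nsmul_eq_mul]
  ring

end Pool.Agent.OddU
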